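import Pool.Agent.Helper80.AK.Ind

/-!
# Independent choices from blocks
-/

set_option autoImplicit false

namespace AK

open Finset

section
variable {q : ℕ}

/-- the mean of a block -/
noncomputable def mn (f : Fin q → ℝ) : ℝ := (∑ i, f i) / (q : ℝ)

/-- the second moment of a block -/
noncomputable def sq2 (f : Fin q → ℝ) : ℝ := (∑ i, f i ^ 2) / (q : ℝ)

/-- the fourth moment of a block -/
noncomputable def sq4 (f : Fin q → ℝ) : ℝ := (∑ i, f i ^ 4) / (q : ℝ)

/-- the average of `F (f_1 i_1 + ⋯ + f_j i_j)` over all choices `i` -/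
noncomputable def avb : List (Fin q → ℝ) → (ℝ → ℝ) → ℝ
  | [], F => F 0
  | f :: l, F => (∑ i, avb l (fun s => F (s + f i))) / q

theorem avb_nil (F : ℝ → ℝ) : avb ([] : List (Fin q → ℝ)) F = F 0 := rfl

theorem avb_cons (f : Fin q → ℝ) (l : List (Fin q → ℝ)) (F : ℝ → ℝ) :
    avb (f :: l) F = (∑ i, avb l (fun s => F (s + f i))) / q := rfl

theorem avb_mono (l : List (Fin q → ℝ)) : ∀ F G : ℝ → ℝ, (∀ s, F s ≤ G s) →
    avb l F ≤ avb l G := by
  induction l with
  | nil => exact fun F G h => h 0
  | cons f l ih =>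
    intro F G h
    rw [avb_cons, avb_cons]
    apply div_le_div_of_nonneg_right _ (Nat.cast_nonneg _)
    exact sum_le_sum (fun x _ => ih _ _ (fun s => h _))

theorem avb_add (l : List (Fin q → ℝ)) : ∀ F G : ℝ → ℝ,
    avb l (fun s => F s + G s) = avb l F + avb l G := by
  induction l with
  | nil => exact fun F G => rfl
  | cons f l ih =>
    intro F G
    rw [avb_cons, avb_cons, avb_cons, ← add_div, ← sum_add_distrib]
    congr 1
    exact sum_congr rfl (fun x _ => ih _ _)

theorem avb_smul (l : List (Fin q → ℝ)) (c : ℝ) : ∀ F : ℝ → ℝ,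
    avb l (fun s => c * F s) = c * avb l F := by
  induction l with
  | nil => exact fun F => rfl
  | cons f l ih =>
    intro F
    rw [avb_cons, avb_cons, ← mul_div_assoc, mul_sum]
    congr 1
    exact sum_congr rfl (fun x _ => ih _)

theorem avb_const (hq : 0 < q) (l : List (Fin q → ℝ)) (c : ℝ) :
    avb l (fun _ => c) = c := by
  induction l with
  | nil => rfl
  | cons f l ih =>
    rw [avb_cons, sum_congr rfl (fun x _ => ih), sum_const, nsmul_eq_mul, card_univ,
      Fintype.card_fin]
    have : (q : ℝ) ≠ 0 := by exact_mod_cast hq.ne'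
    field_simp

/-- moments of centred blocks -/
theorem avb_id (hq : 0 < q) (l : List (Fin q → ℝ)) (h0 : ∀ f ∈ l, ∑ i, f i = 0) :
    avb l (fun s => s) = 0 := by
  induction l with
  | nil => rfl
  | cons f l ih =>
    rw [avb_cons]
    have h1 := ih (fun g hg => h0 g (List.mem_cons_of_mem _ hg))
    have e : ∀ x ∈ (univ : Finset (Fin q)), avb l (fun s => s + f x) = f x := by
      intro x _
      rw [avb_add l (fun s => s) (fun _ => f x), h1, avb_const hq, zero_add]
    rw [sum_congr rfl e, h0 f List.mem_cons_self, zero_div]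

theorem avb_sq (hq : 0 < q) (l : List (Fin q → ℝ)) (h0 : ∀ f ∈ l, ∑ i, f i = 0) :
    avb l (fun s => s ^ 2) = (l.map sq2).sum := by
  have hp : (q : ℝ) ≠ 0 := by exact_mod_cast hq.ne'
  induction l with
  | nil => simp [avb_nil]
  | cons f l ih =>
    rw [avb_cons]
    have h0' : ∀ g ∈ l, ∑ i, g i = 0 := fun g hg => h0 g (List.mem_cons_of_mem _ hg)
    have h1 := ih h0'
    have e : ∀ x ∈ (univ : Finset (Fin q)), avb l (fun s => (s + f x) ^ 2)
        = (l.map sq2).sum + f x ^ 2 := by
      intro x _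
      have e1 : (fun s : ℝ => (s + f x) ^ 2) = (fun s => s ^ 2 + ((2 * f x) * s + f x ^ 2)) := by
        funext s
        ring
      rw [e1, avb_add l (fun s => s ^ 2) (fun s => (2 * f x) * s + f x ^ 2),
        avb_add l (fun s => (2 * f x) * s) (fun _ => f x ^ 2),
        avb_smul l (2 * f x) (fun s => s), avb_id hq l h0', avb_const hq, h1]
      ring
    rw [sum_congr rfl e, sum_add_distrib, sum_const, nsmul_eq_mul, card_univ, Fintype.card_fin,
      List.map_cons, List.sum_cons]
    unfold sq2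
    field_simp
    ring

theorem avb_four (hq : 0 < q) (l : List (Fin q → ℝ)) (h0 : ∀ f ∈ l, ∑ i, f i = 0) :
    avb l (fun s => s ^ 4) ≤ 3 * (l.map sq2).sum ^ 2
      + (l.map sq4).sum := by
  have hp : (q : ℝ) ≠ 0 := by exact_mod_cast hq.ne'
  induction l with
  | nil => simp [avb_nil]
  | cons f l ih =>
    rw [avb_cons]
    have h0' : ∀ g ∈ l, ∑ i, g i = 0 := fun g hg => h0 g (List.mem_cons_of_mem _ hg)
    have h1 := ih h0'
    rw [List.map_cons, List.sum_cons, List.map_cons, List.sum_cons]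
    set V := (l.map sq2).sum with hV
    set W := (l.map sq4).sum with hW
    set v := sq2 f with hv
    set w := sq4 f with hw
    set t := avb l (fun s => s ^ 3) with ht
    set u := avb l (fun s => s ^ 4) with hu
    have e : ∀ x ∈ (univ : Finset (Fin q)), avb l (fun s => (s + f x) ^ 4)
        = u + ((4 * t) * f x + (6 * V) * f x ^ 2 + f x ^ 4) := by
      intro x _
      have e1 : (fun s : ℝ => (s + f x) ^ 4) = (fun s => s ^ 4 + ((4 * f x) * s ^ 3 +
          ((6 * f x ^ 2) * s ^ 2 + ((4 * f x ^ 3) * s + f x ^ 4)))) := by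
        funext s
        ring
      rw [e1, avb_add l (fun s => s ^ 4) (fun s => (4 * f x) * s ^ 3 +
          ((6 * f x ^ 2) * s ^ 2 + ((4 * f x ^ 3) * s + f x ^ 4))),
        avb_add l (fun s => (4 * f x) * s ^ 3) (fun s =>
          ((6 * f x ^ 2) * s ^ 2 + ((4 * f x ^ 3) * s + f x ^ 4))),
        avb_add l (fun s => (6 * f x ^ 2) * s ^ 2) (fun s =>
          ((4 * f x ^ 3) * s + f x ^ 4)),
        avb_add l (fun s => (4 * f x ^ 3) * s) (fun _ => f x ^ 4),
        avb_smul l (4 * f x) (fun s => s ^ 3), avb_smul l (6 * f x ^ 2) (fun s => s ^ 2),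
        avb_smul l (4 * f x ^ 3) (fun s => s), avb_id hq l h0', avb_const hq,
        avb_sq hq l h0', ← hV, ← ht, ← hu]
      ring
    have e2 : ∑ x, f x ^ 2 = v * q := by rw [hv, sq2]; field_simp
    have e3 : ∑ x, f x ^ 4 = w * q := by rw [hw, sq4]; field_simp
    have e4 : ∀ A B C : ℝ, ∑ x, (A + (B * f x + C * f x ^ 2 + f x ^ 4))
        = q * A + (C * (v * q) + w * q) := by
      intro A B C
      rw [sum_add_distrib, sum_add_distrib, sum_add_distrib, ← mul_sum, ← mul_sum,
        h0 f List.mem_cons_self, e2, e3, sum_const, nsmul_eq_mul, card_univ, Fintype.card_fin]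
      ring
    rw [sum_congr rfl e, e4]
    have e5 : ((q : ℝ) * u + (6 * V * (v * q) + w * q)) / q = u + 6 * V * v + w := by
      field_simp
      ring
    rw [e5]
    nlinarith [sq_nonneg v]

/-- the mean value functional of centred blocks -/
theorem avb_mean (hq : 0 < q) (l : List (Fin q → ℝ)) (h0 : ∀ f ∈ l, ∑ i, f i = 0) :
    Mean (avb l) (l.map sq2).sum (avb l (fun s => s ^ 4)) := by
  refine ⟨avb_mono l, ?_⟩
  intro c0 c1 c2 c4
  rw [avb_add l (fun _ => c0) (fun s => c1 * s + (c2 * s ^ 2 + c4 * s ^ 4)),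
    avb_add l (fun s => c1 * s) (fun s => c2 * s ^ 2 + c4 * s ^ 4),
    avb_add l (fun s => c2 * s ^ 2) (fun s => c4 * s ^ 4), avb_smul l c1 (fun s => s),
    avb_smul l c2 (fun s => s ^ 2), avb_smul l c4 (fun s => s ^ 4), avb_const hq,
    avb_id hq l h0, avb_sq hq l h0]
  ring

/-- shifting the blocks -/
theorem avb_shift (l : List (Fin q → ℝ)) (m : (Fin q → ℝ) → ℝ) : ∀ F : ℝ → ℝ,
    avb (l.map (fun f i => f i - m f)) F = avb l (fun s => F (s - (l.map m).sum)) := by
  induction l with
  | nil =>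
    intro F
    simp [avb_nil]
  | cons f l ih =>
    intro F
    rw [List.map_cons, avb_cons, avb_cons]
    congr 1
    apply sum_congr rfl
    intro x _
    rw [ih]
    congr 1
    funext s
    congr 1
    rw [List.map_cons, List.sum_cons]
    ring

/-- the lower bound for independent choices from blocks with values in `[-β, 1]` -/
theorem avb_lower (hq : 0 < q) (l : List (Fin q → ℝ)) {β : ℝ} (hβ : 0 < β)
    (h1 : ∀ f ∈ l, ∀ i, f i ≤ 1) (h2 : ∀ f ∈ l, ∀ i, -β ≤ f i)
    (hT : 5 / 16 * (1 + β) ≤ 1 + (l.map mn).sum) :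
    21 / 200 ≤ avb l (fun s => ind 1 s) := by
  have hq0 : (0 : ℝ) < q := by exact_mod_cast hq
  set T := (l.map mn).sum with hTd
  set m : (Fin q → ℝ) → ℝ := mn with hm
  set l' := l.map (fun f i => f i - m f) with hl'
  have hm1 : ∀ f ∈ l, m f ≤ 1 := by
    intro f hf
    rw [hm, mn, div_le_one hq0]
    calc ∑ i, f i ≤ ∑ i : Fin q, (1 : ℝ) := sum_le_sum (fun i _ => h1 f hf i)
      _ = q := by simp
  have hm2 : ∀ f ∈ l, -β ≤ m f := by
    intro f hf
    rw [hm, mn, le_div_iff₀ hq0]
    calc -β * q = ∑ i : Fin q, (-β) := by simp [mul_comm]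
      _ ≤ _ := sum_le_sum (fun i _ => h2 f hf i)
  have h0 : ∀ f ∈ l', ∑ i, f i = 0 := by
    intro f hf
    rw [hl', List.mem_map] at hf
    obtain ⟨g, _, rfl⟩ := hf
    rw [sum_sub_distrib, sum_const, nsmul_eq_mul, card_univ, Fintype.card_fin, hm, mn]
    field_simp
    ring
  have hB : ∀ f ∈ l', ∀ i, f i ^ 2 ≤ (1 + β) ^ 2 := by
    intro f hf i
    rw [hl', List.mem_map] at hf
    obtain ⟨g, hg, rfl⟩ := hf
    have a1 := h1 g hg i
    have a2 := h2 g hg i
    have a3 := hm1 g hg
    have a4 := hm2 g hg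
    apply sq_le_sq'
    · linarith
    · linarith
  have hVnn : 0 ≤ (l'.map sq2).sum := by
    apply List.sum_nonneg
    intro x hx
    rw [List.mem_map] at hx
    obtain ⟨f, _, rfl⟩ := hx
    unfold sq2
    positivity
  have hW : (l'.map sq4).sum
      ≤ (1 + β) ^ 2 * (l'.map sq2).sum := by
    rw [← List.sum_map_mul_left]
    apply List.sum_le_sum
    intro f hf
    unfold sq2 sq4
    rw [← mul_div_assoc]
    apply div_le_div_of_nonneg_right _ hq0.le
    rw [mul_sum]
    apply sum_le_sum
    intro i _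
    have e : f i ^ 4 = f i ^ 2 * f i ^ 2 := by ring
    rw [e]
    exact mul_le_mul_of_nonneg_right (hB f hf i) (sq_nonneg _)
  have hfour := avb_four hq l' h0
  have ht0 : 0 < 1 + T := by
    have : 0 < 5 / 16 * (1 + β) := by positivity
    linarith
  have hlow := (avb_mean hq l' h0).lower (t := 1 + T) (B := 1 + β) ht0 hT (by linarith) hVnn
    (by linarith)
  have hshift : avb l' (fun s => ind (1 + T) s) = avb l (fun s => ind 1 s) := by
    rw [hl', avb_shift l m (fun s => ind (1 + T) s)]
    congr 1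
    funext s
    unfold ind
    have : -(1 + T) < s - (l.map m).sum ↔ -1 < s := by
      rw [hTd]
      constructor
      · intro h
        linarith
      · intro h
        linarith
    simp only [this]
  rw [← hshift]
  exact hlow

end

end AK
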