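import Mathlib

/-!
# Cyclic windows: a set of `M` nonnegative doses with total less than `M / k` has at least
`C(M, k) / M` nonlethal `k`-subsets
-/

set_option autoImplicit false

namespace AK

open Finset

section
variable {M : ℕ} {k : ℕ}

/-- the sum over all permutations of a function of the image of a set depends only on its size -/
theorem sum_perm_eq (F : Finset (Fin M) → ℕ) {I J : Finset (Fin M)} (h : I.card = J.card) :
    ∑ σ : Equiv.Perm (Fin M), F (I.map σ.toEmbedding)
      = ∑ σ : Equiv.Perm (Fin M), F (J.map σ.toEmbedding) := by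
  classical
  have e : {x // x ∈ J} ≃ {x // x ∈ I} := Finset.equivOfCardEq h.symm
  set π : Equiv.Perm (Fin M) := e.extendSubtype with hπ
  have hJ : J.map π.toEmbedding = I := by
    apply Finset.eq_of_subset_of_card_le
    · intro x hx
      rw [mem_map] at hx
      obtain ⟨y, hy, rfl⟩ := hx
      exact e.extendSubtype_mem y hy
    · rw [card_map, h]
  rw [← Equiv.sum_comp (Equiv.mulRight π) (fun σ : Equiv.Perm (Fin M) => F (J.map σ.toEmbedding))]
  apply sum_congr rfl
  intro σ _
  congr 1
  rw [← hJ, map_map]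
  rfl

theorem sum_sets_eq (F : Finset (Fin M) → ℕ) (σ : Equiv.Perm (Fin M)) :
    ∑ I ∈ powersetCard k (univ : Finset (Fin M)), F (I.map σ.toEmbedding)
      = ∑ I ∈ powersetCard k (univ : Finset (Fin M)), F I := by
  classical
  apply sum_bij (fun I _ => I.map σ.toEmbedding)
  · intro I hI
    rw [mem_powersetCard] at hI ⊢
    exact ⟨subset_univ _, by rw [card_map]; exact hI.2⟩
  · intro I _ J _ h
    exact map_injective _ h
  · intro J hJ
    rw [mem_powersetCard] at hJ
    refine ⟨J.map σ.symm.toEmbedding, ?_, ?_⟩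
    · rw [mem_powersetCard]
      exact ⟨subset_univ _, by rw [card_map]; exact hJ.2⟩
    · rw [map_map]
      ext x
      simp
  · intro I _
    rfl

/-- double counting over permutations -/
theorem perm_count (F : Finset (Fin M) → ℕ) {I : Finset (Fin M)} (hI : I.card = k) :
    M.choose k * ∑ σ : Equiv.Perm (Fin M), F (I.map σ.toEmbedding)
      = M.factorial * ∑ J ∈ powersetCard k (univ : Finset (Fin M)), F J := by
  classical
  have h1 : ∑ J ∈ powersetCard k (univ : Finset (Fin M)),
      ∑ σ : Equiv.Perm (Fin M), F (J.map σ.toEmbedding)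
      = M.choose k * ∑ σ : Equiv.Perm (Fin M), F (I.map σ.toEmbedding) := by
    rw [sum_congr rfl (fun J hJ => sum_perm_eq F (I := J) (J := I)
      (by rw [(mem_powersetCard.1 hJ).2, hI])), sum_const, card_powersetCard, card_univ,
      Fintype.card_fin, smul_eq_mul]
  rw [← h1, sum_comm, sum_congr rfl (fun σ _ => sum_sets_eq F σ), sum_const, smul_eq_mul,
    card_univ, Fintype.card_perm, Fintype.card_fin]

/-- the cyclic window -/
def win (M k : ℕ) [NeZero M] (i : Fin M) : Finset (Fin M) :=
  (range k).image (fun j => i + Fin.ofNat M j)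

theorem win_inj [NeZero M] (hk : k ≤ M) (i : Fin M) :
    Set.InjOn (fun j : ℕ => i + Fin.ofNat M j) (range k : Finset ℕ) := by
  intro a ha b hb hab
  rw [coe_range, Set.mem_Iio] at ha hb
  have h1 := add_left_cancel hab
  have h2 := congrArg Fin.val h1
  simp only [Fin.ofNat] at h2
  rwa [Nat.mod_eq_of_lt (by omega), Nat.mod_eq_of_lt (by omega)] at h2

theorem card_win [NeZero M] (hk : k ≤ M) (i : Fin M) : (win M k i).card = k := by
  unfold win
  rw [card_image_of_injOn (win_inj hk i), card_range]

theorem sum_win [NeZero M] (hk : k ≤ M) (g : Fin M → ℝ) :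
    ∑ i : Fin M, ∑ x ∈ win M k i, g x = k * ∑ x, g x := by
  have h1 : ∀ i : Fin M, ∑ x ∈ win M k i, g x = ∑ j ∈ range k, g (i + Fin.ofNat M j) := by
    intro i
    unfold win
    rw [sum_image (win_inj hk i)]
  rw [sum_congr rfl (fun i _ => h1 i), sum_comm]
  have h2 : ∀ j ∈ range k, ∑ i : Fin M, g (i + Fin.ofNat M j) = ∑ x, g x := by
    intro j _
    exact Equiv.sum_comp (Equiv.addRight (Fin.ofNat M j)) g
  rw [sum_congr rfl h2, sum_const, card_range, nsmul_eq_mul]

/-- many nonlethal sets -/
theorem windows (hM : 0 < M) (hk : k ≤ M) (g : Fin M → ℝ) (hs : k * ∑ x, g x < M) :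
    M.choose k ≤ M * ((powersetCard k (univ : Finset (Fin M))).filter
      (fun V => ∑ x ∈ V, g x < 1)).card := by
  classical
  haveI : NeZero M := ⟨hM.ne'⟩
  set F : Finset (Fin M) → ℕ := fun V => if ∑ x ∈ V, g x < 1 then 1 else 0 with hF
  have hB : ((powersetCard k (univ : Finset (Fin M))).filter (fun V => ∑ x ∈ V, g x < 1)).card
      = ∑ J ∈ powersetCard k (univ : Finset (Fin M)), F J := by
    rw [card_filter]
  rw [hB]
  -- every permutation has a nonlethal window
  have h1 : ∀ σ : Equiv.Perm (Fin M), 1 ≤ ∑ i : Fin M, F ((win M k i).map σ.toEmbedding) := by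
    intro σ
    by_contra hcon
    have h2 : ∀ i : Fin M, F ((win M k i).map σ.toEmbedding) = 0 := by
      have : ∑ i : Fin M, F ((win M k i).map σ.toEmbedding) = 0 := by omega
      rw [sum_eq_zero_iff] at this
      exact fun i => this i (mem_univ i)
    have h3 : ∀ i : Fin M, 1 ≤ ∑ x ∈ win M k i, g (σ x) := by
      intro i
      have := h2 i
      simp only [hF] at this
      split_ifs at this with h4
      rw [sum_map] at h4
      push Not at h4
      exact h4
    have h5 := sum_win hk (fun x => g (σ x))
    rw [Equiv.sum_comp σ g] at h5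
    have h6 : (M : ℝ) ≤ ∑ i : Fin M, ∑ x ∈ win M k i, g (σ x) := by
      calc (M : ℝ) = ∑ i : Fin M, (1 : ℝ) := by simp
        _ ≤ _ := sum_le_sum (fun i _ => h3 i)
    linarith
  have h2 : M.factorial ≤ ∑ i : Fin M, ∑ σ : Equiv.Perm (Fin M),
      F ((win M k i).map σ.toEmbedding) := by
    rw [sum_comm]
    calc M.factorial = ∑ σ : Equiv.Perm (Fin M), 1 := by
          rw [sum_const, card_univ, Fintype.card_perm, Fintype.card_fin, smul_eq_mul, mul_one]
      _ ≤ _ := sum_le_sum (fun σ _ => h1 σ)
  have h3 : M.choose k * M.factorial ≤ M * (M.factorial *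
      ∑ J ∈ powersetCard k (univ : Finset (Fin M)), F J) := by
    calc M.choose k * M.factorial ≤ M.choose k * ∑ i : Fin M, ∑ σ : Equiv.Perm (Fin M),
          F ((win M k i).map σ.toEmbedding) := Nat.mul_le_mul_left _ h2
      _ = ∑ i : Fin M, M.choose k * ∑ σ : Equiv.Perm (Fin M),
          F ((win M k i).map σ.toEmbedding) := mul_sum _ _ _
      _ = ∑ i : Fin M, M.factorial * ∑ J ∈ powersetCard k (univ : Finset (Fin M)), F J :=
          sum_congr rfl (fun i _ => perm_count F (card_win hk i))
      _ = _ := by rw [sum_const, card_univ, Fintype.card_fin, smul_eq_mul]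
  have h4 : M.factorial * M.choose k ≤ M.factorial *
      (M * ∑ J ∈ powersetCard k (univ : Finset (Fin M)), F J) := by
    calc M.factorial * M.choose k = M.choose k * M.factorial := mul_comm _ _
      _ ≤ _ := h3
      _ = _ := by ring
  exact Nat.le_of_mul_le_mul_left h4 (Nat.factorial_pos M)

end

end AK
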