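import Pool.Agent.Helper80.AK.Avb
import Pool.Agent.Helper80.AK.Win
import Pool.Agent.Helper46.K3.Sort

/-!
# A random `j`-subset as independent choices from random blocks
-/

set_option autoImplicit false

namespace AK

open Finset K3

theorem avb_ofFn {q : ℕ} (hq : 0 < q) (j : ℕ) : ∀ (f : Fin j → Fin q → ℝ) (F : ℝ → ℝ),
    avb (List.ofFn f) F * (q : ℝ) ^ j = ∑ c : Fin j → Fin q, F (∑ b, f b (c b)) := by
  have hq0 : (q : ℝ) ≠ 0 := by exact_mod_cast hq.ne'
  induction j with
  | zero =>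
    intro f F
    simp [avb_nil]
  | succ j ih =>
    intro f F
    rw [List.ofFn_succ, avb_cons, ← Equiv.sum_comp (Fin.consEquiv (fun _ => Fin q)),
      Fintype.sum_prod_type]
    have h1 : ∀ i ∈ (univ : Finset (Fin q)),
        ∑ c : (Fin j → Fin q), F (∑ b, f b ((Fin.consEquiv (fun _ => Fin q)) (i, c) b))
        = avb (List.ofFn fun b => f b.succ) (fun s => F (s + f 0 i)) * (q : ℝ) ^ j := by
      intro i _
      rw [ih]
      apply sum_congr rfl
      intro c _
      rw [Fin.sum_univ_succ]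
      simp only [Fin.consEquiv_apply, Fin.cons_zero, Fin.cons_succ]
      rw [add_comm]
    rw [sum_congr rfl h1, ← sum_mul, pow_succ]
    field_simp

section
variable {M j q : ℕ}

/-- the positions of the blocks -/
def pos (h : j * q ≤ M) (p : Fin j × Fin q) : Fin M := Fin.castLE h (finProdFinEquiv p)

theorem pos_inj (h : j * q ≤ M) : Function.Injective (pos h) :=
  (Fin.castLE_injective h).comp finProdFinEquiv.injective

/-- the set of chosen positions -/
def chs (h : j * q ≤ M) (c : Fin j → Fin q) : Finset (Fin M) :=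
  (univ : Finset (Fin j)).map ⟨fun b => pos h (b, c b), fun a b hab => by
    have := pos_inj h hab
    exact (Prod.mk.inj this).1⟩

theorem card_chs (h : j * q ≤ M) (c : Fin j → Fin q) : (chs h c).card = j := by
  unfold chs
  simp

theorem sum_chs (h : j * q ≤ M) (c : Fin j → Fin q) (g : Fin M → ℝ) :
    ∑ x ∈ chs h c, g x = ∑ b, g (pos h (b, c b)) := by
  unfold chs
  rw [sum_map]
  rfl

/-- the sum over all blocks -/
theorem sum_pos (h : j * q ≤ M) (g : Fin M → ℝ) (h1 : ∀ x, g x ≤ 1) :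
    ∑ x, g x - ((M : ℝ) - j * q) ≤ ∑ b, ∑ i, g (pos h (b, i)) := by
  classical
  set Us : Finset (Fin M) := (univ : Finset (Fin j × Fin q)).map ⟨pos h, pos_inj h⟩ with hUs
  have hc : Us.card = j * q := by
    rw [hUs, card_map, card_univ, Fintype.card_prod, Fintype.card_fin, Fintype.card_fin]
  have h2 : ∑ x ∈ Us, g x = ∑ b, ∑ i, g (pos h (b, i)) := by
    rw [hUs, sum_map, ← Fintype.sum_prod_type']
    rfl
  have h3 : ∑ x ∈ univ \ Us, g x ≤ (M : ℝ) - j * q := by
    calc ∑ x ∈ univ \ Us, g x ≤ ∑ x ∈ univ \ Us, (1 : ℝ) := sum_le_sum (fun x _ => h1 x)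
      _ = ((univ \ Us).card : ℝ) := by simp
      _ = (M : ℝ) - j * q := by
        rw [card_sdiff_of_subset (subset_univ _), card_univ, Fintype.card_fin, hc,
          Nat.cast_sub h]
        push_cast
        ring
  have h4 := sum_sdiff (f := g) (subset_univ Us)
  rw [← h2]
  linarith

/-- the proportion of the `j`-subsets with sum greater than `-1` -/
theorem fin_lower (hq : 0 < q) (h : j * q ≤ M) (g : Fin M → ℝ) {β : ℝ} (hβ : 0 < β)
    (h1 : ∀ x, g x ≤ 1) (h2 : ∀ x, -β ≤ g x)
    (hT : 5 / 16 * (1 + β) * q ≤ q + (∑ x, g x - ((M : ℝ) - j * q))) :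
    21 / 200 * (M.choose j : ℝ) ≤ (((powersetCard j (univ : Finset (Fin M))).filter
      (fun V => -1 < ∑ x ∈ V, g x)).card : ℝ) := by
  classical
  have hq0 : (0 : ℝ) < q := by exact_mod_cast hq
  set F : Finset (Fin M) → ℕ := fun V => if -1 < ∑ x ∈ V, g x then 1 else 0 with hF
  have hB : ((powersetCard j (univ : Finset (Fin M))).filter (fun V => -1 < ∑ x ∈ V, g x)).card
      = ∑ J ∈ powersetCard j (univ : Finset (Fin M)), F J := by
    rw [card_filter]
  rw [hB]
  -- the bound for one permutation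
  have hσ : ∀ σ : Equiv.Perm (Fin M), 21 / 200 * (q : ℝ) ^ j
      ≤ ((∑ c : Fin j → Fin q, F ((chs h c).map σ.toEmbedding) : ℕ) : ℝ) := by
    intro σ
    set f : Fin j → Fin q → ℝ := fun b i => g (σ (pos h (b, i))) with hf
    have hlow := avb_lower hq (List.ofFn f) hβ
      (by
        intro φ hφ i
        rw [List.mem_ofFn] at hφ
        obtain ⟨b, rfl⟩ := hφ
        exact h1 _)
      (by
        intro φ hφ i
        rw [List.mem_ofFn] at hφ
        obtain ⟨b, rfl⟩ := hφ
        exact h2 _)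
      (by
        rw [List.map_ofFn, List.sum_ofFn]
        have e : ∑ b, (mn ∘ f) b = (∑ b, ∑ i, g (σ (pos h (b, i)))) / q := by
          rw [sum_div]
          rfl
        rw [e]
        have h3 := sum_pos h (fun x => g (σ x)) (fun x => h1 _)
        rw [Equiv.sum_comp σ g] at h3
        have e2 : 1 + (∑ b, ∑ i, g (σ (pos h (b, i)))) / (q : ℝ)
            = (q + ∑ b, ∑ i, g (σ (pos h (b, i)))) / q := by
          field_simp
        rw [e2, le_div_iff₀ hq0]
        linarith)
    have hsum := avb_ofFn hq j f (fun s => ind 1 s)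
    have e3 : ((∑ c : Fin j → Fin q, F ((chs h c).map σ.toEmbedding) : ℕ) : ℝ)
        = ∑ c : Fin j → Fin q, ind 1 (∑ b, f b (c b)) := by
      push_cast
      apply sum_congr rfl
      intro c _
      simp only [hF]
      rw [sum_map]
      simp only [Equiv.coe_toEmbedding]
      rw [sum_chs h c (fun x => g (σ x))]
      unfold ind
      push_cast
      rfl
    rw [e3, ← hsum]
    exact mul_le_mul_of_nonneg_right hlow (by positivity)
  -- double counting
  have h3 : ∀ c : Fin j → Fin q, (M.choose j : ℝ) *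
      ((∑ σ : Equiv.Perm (Fin M), F ((chs h c).map σ.toEmbedding) : ℕ) : ℝ)
      = (M.factorial : ℝ) * ((∑ J ∈ powersetCard j (univ : Finset (Fin M)), F J : ℕ) : ℝ) := by
    intro c
    exact_mod_cast perm_count F (card_chs h c)
  have h4 : (M.choose j : ℝ) * ((∑ σ : Equiv.Perm (Fin M), ∑ c : Fin j → Fin q,
      F ((chs h c).map σ.toEmbedding) : ℕ) : ℝ)
      = (q : ℝ) ^ j * ((M.factorial : ℝ) *
        ((∑ J ∈ powersetCard j (univ : Finset (Fin M)), F J : ℕ) : ℝ)) := by
    rw [sum_comm]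
    rw [Nat.cast_sum, mul_sum, sum_congr rfl (fun c _ => h3 c), sum_const, card_univ,
      Fintype.card_fun, Fintype.card_fin, Fintype.card_fin, nsmul_eq_mul]
    push_cast
    ring
  have h5 : (M.factorial : ℝ) * (21 / 200 * (q : ℝ) ^ j)
      ≤ ((∑ σ : Equiv.Perm (Fin M), ∑ c : Fin j → Fin q,
        F ((chs h c).map σ.toEmbedding) : ℕ) : ℝ) := by
    rw [Nat.cast_sum]
    calc (M.factorial : ℝ) * (21 / 200 * (q : ℝ) ^ j)
        = ∑ σ : Equiv.Perm (Fin M), 21 / 200 * (q : ℝ) ^ j := by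
          rw [sum_const, card_univ, Fintype.card_perm, Fintype.card_fin, nsmul_eq_mul]
      _ ≤ _ := sum_le_sum (fun σ _ => hσ σ)
  have hfac : (0 : ℝ) < M.factorial := by exact_mod_cast Nat.factorial_pos M
  have hqj : (0 : ℝ) < (q : ℝ) ^ j := by positivity
  have h6 : (21 / 200 * (M.choose j : ℝ)) * ((M.factorial : ℝ) * (q : ℝ) ^ j)
      ≤ ((∑ J ∈ powersetCard j (univ : Finset (Fin M)), F J : ℕ) : ℝ)
        * ((M.factorial : ℝ) * (q : ℝ) ^ j) := by
    calc (21 / 200 * (M.choose j : ℝ)) * ((M.factorial : ℝ) * (q : ℝ) ^ j)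
        = (M.choose j : ℝ) * ((M.factorial : ℝ) * (21 / 200 * (q : ℝ) ^ j)) := by ring
      _ ≤ (M.choose j : ℝ) * ((∑ σ : Equiv.Perm (Fin M), ∑ c : Fin j → Fin q,
        F ((chs h c).map σ.toEmbedding) : ℕ) : ℝ) :=
          mul_le_mul_of_nonneg_left h5 (Nat.cast_nonneg _)
      _ = _ := by rw [h4]; ring
  exact le_of_mul_le_mul_right h6 (by positivity)

end

section
variable {ι : Type*} [DecidableEq ι]

/-- the same for a finite set -/
theorem set_lower {M j q : ℕ} (hq : 0 < q) (h : j * q ≤ M) (Q : Finset ι) (hQ : Q.card = M)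
    (y : ι → ℝ) {β : ℝ} (hβ : 0 < β) (h1 : ∀ x ∈ Q, y x ≤ 1) (h2 : ∀ x ∈ Q, -β ≤ y x)
    (hT : 5 / 16 * (1 + β) * q ≤ q + (∑ x ∈ Q, y x - ((M : ℝ) - j * q))) :
    21 / 200 * (M.choose j : ℝ) ≤ (((powersetCard j Q).filter
      (fun V => -1 < ∑ x ∈ V, y x)).card : ℝ) := by
  classical
  obtain ⟨e, he, _⟩ := exists_sorted M y Q hQ
  have hmem : ∀ x, e x ∈ Q := by
    intro x
    rw [← he]
    exact mem_map_of_mem e (mem_univ x)
  have hsum : ∑ x, y (e x) = ∑ x ∈ Q, y x := by
    rw [← he, sum_map]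
  have hf := fin_lower hq h (fun x => y (e x)) hβ (fun x => h1 _ (hmem x)) (fun x => h2 _ (hmem x))
    (by rw [hsum]; exact hT)
  refine hf.trans ?_
  have hle : ((powersetCard j (univ : Finset (Fin M))).filter
      (fun V => -1 < ∑ x ∈ V, y (e x))).card
      ≤ ((powersetCard j Q).filter (fun V => -1 < ∑ x ∈ V, y x)).card := by
    rw [← card_map (mapEmbedding e).toEmbedding]
    apply card_le_card
    intro V hV
    rw [mem_map] at hV
    obtain ⟨W, hW, rfl⟩ := hV
    rw [mem_filter, mem_powersetCard] at hW ⊢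
    refine ⟨⟨?_, ?_⟩, ?_⟩
    · intro x hx
      rw [RelEmbedding.coe_toEmbedding, mapEmbedding_apply, mem_map] at hx
      obtain ⟨z, _, rfl⟩ := hx
      exact hmem z
    · rw [RelEmbedding.coe_toEmbedding, mapEmbedding_apply, card_map]
      exact hW.1.2
    · rw [RelEmbedding.coe_toEmbedding, mapEmbedding_apply, sum_map]
      exact hW.2
  exact_mod_cast hle

end

end AK
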