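import Pool.Agent.Helper46.K3.Sort

/-!
# Double counting for `k`-sets and `(k - 1)`-sets
-/

set_option autoImplicit false

namespace AK

open Finset K3

section
variable {ι : Type*} [DecidableEq ι]

/-- pairs (a `(k + 1)`-set, an element of it) and pairs (a `k`-set, an element outside) -/
theorem swap_sum (Q : Finset ι) (k : ℕ) (F : Finset ι → ι → ℝ) :
    ∑ V ∈ powersetCard (k + 1) Q, ∑ x ∈ V, F (V.erase x) x
      = ∑ W ∈ powersetCard k Q, ∑ x ∈ Q \ W, F W x := by
  rw [sum_sigma', sum_sigma']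
  apply sum_bij' (fun p _ => (⟨p.1.erase p.2, p.2⟩ : (_ : Finset ι) × ι))
    (fun p _ => (⟨insert p.2 p.1, p.2⟩ : (_ : Finset ι) × ι))
  · rintro ⟨V, x⟩ hp
    rw [mem_sigma, mem_powersetCard] at hp
    obtain ⟨⟨hV, hc⟩, hx⟩ := hp
    rw [mem_sigma, mem_powersetCard]
    refine ⟨⟨(erase_subset _ _).trans hV, ?_⟩, ?_⟩
    · simp only
      rw [card_erase_of_mem hx, hc]
      rfl
    · rw [mem_sdiff]
      exact ⟨hV hx, notMem_erase _ _⟩
  · rintro ⟨W, x⟩ hp
    rw [mem_sigma, mem_powersetCard] at hp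
    obtain ⟨⟨hW, hc⟩, hx⟩ := hp
    rw [mem_sdiff] at hx
    rw [mem_sigma, mem_powersetCard]
    refine ⟨⟨?_, ?_⟩, ?_⟩
    · intro y hy
      rcases mem_insert.1 hy with rfl | hy
      · exact hx.1
      · exact hW hy
    · simp only
      rw [card_insert_of_notMem hx.2]
      simp only at hc
      rw [hc]
    · exact mem_insert_self _ _
  · rintro ⟨V, x⟩ hp
    rw [mem_sigma] at hp
    simp only [Sigma.mk.injEq, heq_eq_eq, and_true]
    exact insert_erase hp.2
  · rintro ⟨W, x⟩ hp
    rw [mem_sigma, mem_sdiff] at hp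
    simp only [Sigma.mk.injEq, heq_eq_eq, and_true]
    exact erase_insert hp.2.2
  · rintro ⟨V, x⟩ _
    rfl

/-- lethal -/
noncomputable def le1 (g : ι → ℝ) (V : Finset ι) : ℝ := if 1 ≤ ∑ i ∈ V, g i then 1 else 0

theorem cnt_eq_sum (k : ℕ) (g : ι → ℝ) (Q : Finset ι) :
    (cnt 1 k g Q : ℝ) = ∑ V ∈ powersetCard k Q, le1 g V := by
  unfold cnt le1
  rw [card_filter]
  push_cast
  rfl

theorem le1_nonneg (g : ι → ℝ) (V : Finset ι) : 0 ≤ le1 g V := by
  unfold le1
  split_ifs <;> norm_num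

theorem le1_le_one (g : ι → ℝ) (V : Finset ι) : le1 g V ≤ 1 := by
  unfold le1
  split_ifs <;> norm_num

/-- the fraction of lethal sets increases -/
theorem lym (Q : Finset ι) (g : ι → ℝ) (h0 : ∀ i ∈ Q, 0 ≤ g i) (k : ℕ) :
    (cnt 1 k g Q : ℝ) * ((Q.card : ℝ) - k) ≤ cnt 1 (k + 1) g Q * ((k : ℝ) + 1) := by
  have h1 := swap_sum Q k (fun W _ => le1 g W)
  have h2 : ∑ W ∈ powersetCard k Q, ∑ x ∈ Q \ W, le1 g W
      = (cnt 1 k g Q : ℝ) * ((Q.card : ℝ) - k) := by
    rw [cnt_eq_sum, sum_mul]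
    apply sum_congr rfl
    intro W hW
    rw [mem_powersetCard] at hW
    rw [sum_const, card_sdiff_of_subset hW.1, nsmul_eq_mul, Nat.cast_sub (card_le_card hW.1),
      hW.2, mul_comm]
  have h3 : ∑ V ∈ powersetCard (k + 1) Q, ∑ x ∈ V, le1 g (V.erase x)
      ≤ cnt 1 (k + 1) g Q * ((k : ℝ) + 1) := by
    rw [cnt_eq_sum, sum_mul]
    apply sum_le_sum
    intro V hV
    rw [mem_powersetCard] at hV
    calc ∑ x ∈ V, le1 g (V.erase x) ≤ ∑ x ∈ V, le1 g V := by
          apply sum_le_sum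
          intro x hx
          unfold le1
          split_ifs with h4 h5
          · exact le_rfl
          · exfalso
            apply h5
            refine h4.trans ?_
            rw [← add_sum_erase V g hx]
            have := h0 x (hV.1 hx)
            linarith
          · norm_num
          · exact le_rfl
      _ = le1 g V * ((k : ℝ) + 1) := by
          rw [sum_const, hV.2, nsmul_eq_mul]
          push_cast
          ring
  rw [← h2, ← h1]
  exact h3

/-- the total dose of all `(k + 1)`-sets -/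
theorem sum_total (Q : Finset ι) (g : ι → ℝ) (k : ℕ) (hQ : 1 ≤ Q.card) :
    ∑ V ∈ powersetCard (k + 1) Q, ∑ x ∈ V, g x
      = ((Q.card - 1).choose k : ℝ) * ∑ x ∈ Q, g x := by
  have h1 : ∑ V ∈ powersetCard (k + 1) Q, ∑ x ∈ V, g x
      = ∑ V ∈ powersetCard (k + 1) Q, ∑ x ∈ Q, (if x ∈ V then g x else 0) := by
    apply sum_congr rfl
    intro V hV
    rw [mem_powersetCard] at hV
    rw [← sum_filter]
    congr 1
    ext x
    rw [mem_filter]
    constructor
    · intro hx
      exact ⟨hV.1 hx, hx⟩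
    · exact fun hx => hx.2
  rw [h1, sum_comm, mul_sum]
  apply sum_congr rfl
  intro x hx
  rw [← sum_filter, sum_const, nsmul_eq_mul]
  congr 2
  have h2 : ((powersetCard (k + 1) Q).filter (fun V => x ∈ V)).card
      = (powersetCard k (Q.erase x)).card := by
    apply card_bij (fun V _ => V.erase x)
    · intro V hV
      rw [mem_filter, mem_powersetCard] at hV
      rw [mem_powersetCard]
      refine ⟨erase_subset_erase _ hV.1.1, ?_⟩
      rw [card_erase_of_mem hV.2, hV.1.2]
      rfl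
    · intro V hV W hW hVW
      rw [mem_filter] at hV hW
      have := congrArg (insert x) hVW
      rwa [insert_erase hV.2, insert_erase hW.2] at this
    · intro W hW
      rw [mem_powersetCard] at hW
      have hxW : x ∉ W := fun h => notMem_erase x Q (hW.1 h)
      refine ⟨insert x W, ?_, erase_insert hxW⟩
      rw [mem_filter, mem_powersetCard]
      refine ⟨⟨?_, ?_⟩, mem_insert_self _ _⟩
      · intro y hy
        rcases mem_insert.1 hy with rfl | hy
        · exact hx
        · exact mem_of_mem_erase (hW.1 hy)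
      · rw [card_insert_of_notMem hxW, hW.2]
  rw [h2, card_powersetCard, card_erase_of_mem hx]

/-- inequality (1): many nonlethal sets -/
theorem bound_one (Q : Finset ι) (g : ι → ℝ) (h0 : ∀ i ∈ Q, 0 ≤ g i) (k N : ℕ)
    (hN : Q.card = N) (hk : k + 1 ≤ N) :
    (cnt 1 k g Q : ℝ) * (∑ x ∈ Q, g x - 1) / ((k : ℝ) + 1)
      - (((N - 1).choose k : ℝ) * ∑ x ∈ Q, g x - (N.choose (k + 1) : ℝ))
      ≤ (N.choose (k + 1) : ℝ) - cnt 1 (k + 1) g Q := by
  set T := ∑ x ∈ Q, g x with hT
  have hk0 : (0 : ℝ) < (k : ℝ) + 1 := by positivity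
  -- the pointwise bound for one set
  have hpt : ∀ V ∈ powersetCard (k + 1) Q,
      (∑ x ∈ V, le1 g (V.erase x) * (∑ y ∈ V.erase x, g y + g x - 1)) / ((k : ℝ) + 1)
        - (∑ y ∈ V, g y - 1) ≤ 1 - le1 g V := by
    intro V hV
    rw [mem_powersetCard] at hV
    have hs : 0 ≤ ∑ y ∈ V, g y := sum_nonneg (fun y hy => h0 y (hV.1 hy))
    have h1 : ∑ x ∈ V, le1 g (V.erase x) * (∑ y ∈ V.erase x, g y + g x - 1)
        = ∑ x ∈ V, le1 g (V.erase x) * (∑ y ∈ V, g y - 1) := by
      apply sum_congr rfl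
      intro x hx
      rw [sum_erase_add V g hx]
    rw [h1]
    by_cases hl : 1 ≤ ∑ y ∈ V, g y
    · have h2 : le1 g V = 1 := by unfold le1; rw [if_pos hl]
      rw [h2, sub_self, sub_nonpos, div_le_iff₀ hk0]
      calc ∑ x ∈ V, le1 g (V.erase x) * (∑ y ∈ V, g y - 1)
          ≤ ∑ x ∈ V, 1 * (∑ y ∈ V, g y - 1) := by
            apply sum_le_sum
            intro x _
            exact mul_le_mul_of_nonneg_right (le1_le_one _ _) (by linarith)
        _ = (∑ y ∈ V, g y - 1) * ((k : ℝ) + 1) := by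
            rw [sum_const, hV.2, nsmul_eq_mul]
            push_cast
            ring
    · have h2 : le1 g V = 0 := by unfold le1; rw [if_neg hl]
      have h3 : ∀ x ∈ V, le1 g (V.erase x) = 0 := by
        intro x hx
        unfold le1
        rw [if_neg]
        intro h4
        apply hl
        rw [← sum_erase_add V g hx]
        have := h0 x (hV.1 hx)
        linarith
      rw [sum_congr rfl (fun x hx => by rw [h3 x hx, zero_mul]), sum_const_zero, zero_div, h2]
      linarith
  have hsum := sum_le_sum hpt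
  rw [sum_sub_distrib, ← sum_div, swap_sum Q k (fun W x => le1 g W * (∑ y ∈ W, g y + g x - 1)),
    sum_sub_distrib, sum_sub_distrib, sum_total Q g k (by omega), ← cnt_eq_sum, sum_const,
    card_powersetCard, hN, nsmul_eq_mul, mul_one, ← hT] at hsum
  refine le_trans ?_ hsum
  apply sub_le_sub_right
  rw [div_le_div_iff_of_pos_right hk0, cnt_eq_sum, sum_mul]
  apply sum_le_sum
  intro W hW
  rw [mem_powersetCard] at hW
  rw [← mul_sum]
  by_cases hl : 1 ≤ ∑ y ∈ W, g y
  · apply mul_le_mul_of_nonneg_left _ (le1_nonneg _ _)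
    have h5 : ∑ x ∈ Q \ W, g x = T - ∑ y ∈ W, g y := by
      rw [hT, ← sum_sdiff hW.1]
      ring
    have h6 : ((Q \ W).card : ℝ) = (N : ℝ) - k := by
      rw [card_sdiff_of_subset hW.1, Nat.cast_sub (card_le_card hW.1), hN, hW.2]
    have h7 : ∑ x ∈ Q \ W, (∑ y ∈ W, g y + g x - 1)
        = ((N : ℝ) - k) * (∑ y ∈ W, g y - 1) + (T - ∑ y ∈ W, g y) := by
      rw [← h5, ← h6]
      rw [sum_congr rfl (fun x _ => show ∑ y ∈ W, g y + g x - 1 = (∑ y ∈ W, g y - 1) + g x by ring),
        sum_add_distrib, sum_const, nsmul_eq_mul]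
    rw [h7]
    have h8 : (1 : ℝ) ≤ (N : ℝ) - k := by
      have : ((k + 1 : ℕ) : ℝ) ≤ N := by exact_mod_cast hk
      push_cast at this
      linarith
    nlinarith
  · have h2 : le1 g W = 0 := by unfold le1; rw [if_neg hl]
    rw [h2, zero_mul, zero_mul]

end

end AK
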