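import Pool.Agent.Helper80.AK.Feige
import Pool.Agent.Helper80.AK.Sums

/-!
# Sampling without replacement and the crossing argument
-/

set_option autoImplicit false

namespace AK

open Finset

section
variable {ι : Type*} [DecidableEq ι]

/-- the average of `F (y x_1 + ⋯ + y x_j)` over all `j`-tuples of distinct elements of `P` -/
noncomputable def sv (y : ι → ℝ) : ℕ → Finset ι → (ℝ → ℝ) → ℝ
  | 0, _, F => F 0
  | j + 1, P, F => (∑ x ∈ P, sv y j (P.erase x) (fun s => F (s + y x))) / P.card

theorem sv_zero (y : ι → ℝ) (P : Finset ι) (F : ℝ → ℝ) : sv y 0 P F = F 0 := rfl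

theorem sv_succ (y : ι → ℝ) (j : ℕ) (P : Finset ι) (F : ℝ → ℝ) :
    sv y (j + 1) P F = (∑ x ∈ P, sv y j (P.erase x) (fun s => F (s + y x))) / P.card := rfl

theorem sv_mono (y : ι → ℝ) (j : ℕ) : ∀ (P : Finset ι) (F G : ℝ → ℝ), (∀ s, F s ≤ G s) →
    sv y j P F ≤ sv y j P G := by
  induction j with
  | zero => exact fun P F G h => h 0
  | succ j ih =>
    intro P F G h
    rw [sv_succ, sv_succ]
    apply div_le_div_of_nonneg_right _ (Nat.cast_nonneg _)
    exact sum_le_sum (fun x _ => ih _ _ _ (fun s => h _))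

theorem sv_nonneg (y : ι → ℝ) (j : ℕ) : ∀ (P : Finset ι) (F : ℝ → ℝ), (∀ s, 0 ≤ F s) →
    0 ≤ sv y j P F := by
  induction j with
  | zero => exact fun P F h => h 0
  | succ j ih =>
    intro P F h
    rw [sv_succ]
    apply div_nonneg _ (Nat.cast_nonneg _)
    exact sum_nonneg (fun x _ => ih _ _ (fun s => h _))

theorem sv_le_one (y : ι → ℝ) (j : ℕ) : ∀ (P : Finset ι) (F : ℝ → ℝ), (∀ s, F s ≤ 1) →
    sv y j P F ≤ 1 := by
  induction j with
  | zero => exact fun P F h => h 0
  | succ j ih =>
    intro P F h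
    rw [sv_succ]
    rcases P.eq_empty_or_nonempty with rfl | hP
    · simp
    · rw [div_le_one (by exact_mod_cast hP.card_pos)]
      calc ∑ x ∈ P, sv y j (P.erase x) (fun s => F (s + y x)) ≤ ∑ x ∈ P, (1 : ℝ) :=
            sum_le_sum (fun x _ => ih _ _ (fun s => h _))
        _ = P.card := by simp

/-- sums over sets -/
theorem sv_eq (y : ι → ℝ) (j : ℕ) : ∀ (P : Finset ι) (F : ℝ → ℝ), j ≤ P.card →
    sv y j P F * (P.card.choose j : ℝ) = ∑ V ∈ powersetCard j P, F (∑ x ∈ V, y x) := by
  induction j with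
  | zero =>
    intro P F _
    rw [sv_zero]
    simp
  | succ j ih =>
    intro P F hj
    rw [sv_succ]
    have hP0 : (0 : ℝ) < P.card := by
      have : 0 < P.card := by omega
      exact_mod_cast this
    have hC : (0 : ℝ) < ((P.card - 1).choose j : ℝ) := by
      exact_mod_cast Nat.choose_pos (by omega)
    have h1 : ∀ x ∈ P, sv y j (P.erase x) (fun s => F (s + y x)) * ((P.card - 1).choose j : ℝ)
        = ∑ W ∈ powersetCard j (P.erase x), F (∑ z ∈ W, y z + y x) := by
      intro x hx
      have h2 := ih (P.erase x) (fun s => F (s + y x)) (by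
        rw [card_erase_of_mem hx]
        omega)
      rwa [card_erase_of_mem hx] at h2
    have h3 : (∑ x ∈ P, sv y j (P.erase x) (fun s => F (s + y x))) * ((P.card - 1).choose j : ℝ)
        = ((j : ℝ) + 1) * ∑ V ∈ powersetCard (j + 1) P, F (∑ x ∈ V, y x) := by
      rw [sum_mul, sum_congr rfl h1]
      have h4 := swap_sum P j (fun W x => F (∑ z ∈ W, y z + y x))
      have h5 : ∑ V ∈ powersetCard (j + 1) P, ∑ x ∈ V, F (∑ z ∈ V.erase x, y z + y x)
          = ((j : ℝ) + 1) * ∑ V ∈ powersetCard (j + 1) P, F (∑ x ∈ V, y x) := by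
        rw [mul_sum]
        apply sum_congr rfl
        intro V hV
        rw [mem_powersetCard] at hV
        rw [sum_congr rfl (fun x hx => by rw [sum_erase_add V y hx]), sum_const, hV.2,
          nsmul_eq_mul]
        push_cast
        ring
      rw [← h5, h4]
      apply sum_comm'
      intro x W
      rw [mem_powersetCard, mem_powersetCard, mem_sdiff]
      constructor
      · rintro ⟨hx, hW, hc⟩
        exact ⟨⟨hx, fun h => notMem_erase x P (hW h)⟩, hW.trans (erase_subset _ _), hc⟩
      · rintro ⟨⟨hx, hxW⟩, hW, hc⟩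
        refine ⟨hx, ?_, hc⟩
        intro z hz
        rw [mem_erase]
        exact ⟨fun h => hxW (h ▸ hz), hW hz⟩
    have h6 : ((P.card - 1).choose j : ℝ) * P.card = (P.card.choose (j + 1) : ℝ) * (j + 1) := by
      have h7 := Nat.add_one_mul_choose_eq (P.card - 1) j
      rw [show P.card - 1 + 1 = P.card by omega] at h7
      have h8 : ((P.card * (P.card - 1).choose j : ℕ) : ℝ)
          = ((P.card.choose (j + 1) * (j + 1) : ℕ) : ℝ) := by rw [h7]
      push_cast at h8
      rw [mul_comm]
      exact h8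
    have hj0 : (0 : ℝ) < (j : ℝ) + 1 := by positivity
    rw [div_mul_eq_mul_div, div_eq_iff hP0.ne']
    have h9 : (∑ x ∈ P, sv y j (P.erase x) (fun s => F (s + y x))) * (P.card.choose (j + 1) : ℝ)
        * ((j : ℝ) + 1) = (∑ V ∈ powersetCard (j + 1) P, F (∑ x ∈ V, y x)) * P.card
        * ((j : ℝ) + 1) := by
      calc _ = (∑ x ∈ P, sv y j (P.erase x) (fun s => F (s + y x)))
            * ((P.card.choose (j + 1) : ℝ) * (j + 1)) := by ring
        _ = ((∑ x ∈ P, sv y j (P.erase x) (fun s => F (s + y x)))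
            * ((P.card - 1).choose j : ℝ)) * P.card := by rw [← h6]; ring
        _ = _ := by rw [h3]; ring
    exact mul_right_cancel₀ hj0.ne' h9

/-- the lower bound for sampling without replacement -/
theorem feige_sv (y : ι → ℝ) (P : Finset ι) (j : ℕ) (hM1 : 48 * j ≤ P.card)
    (hM2 : 5 * j ^ 2 ≤ 2 * P.card) (hy : ∀ x ∈ P, y x ≤ 1) (hs : -3 ≤ ∑ x ∈ P, y x) :
    7 / 100 ≤ sv y j P (fun s => ind 1 s) := by
  rcases Nat.eq_zero_or_pos j with rfl | hj
  · rw [sv_zero]
    unfold ind
    norm_num
  · have h1 := feige_set P y j hj hM1 hM2 hy hs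
    have h2 := sv_eq y j P (fun s => ind 1 s) (by omega)
    have hC : (0 : ℝ) < (P.card.choose j : ℝ) := by exact_mod_cast Nat.choose_pos (by omega)
    have h3 : (((powersetCard j P).filter (fun V => -1 < ∑ x ∈ V, y x)).card : ℝ)
        = ∑ V ∈ powersetCard j P, ind 1 (∑ x ∈ V, y x) := by
      rw [card_filter]
      push_cast
      rfl
    rw [h3, ← h2] at h1
    exact le_of_mul_le_mul_right h1 hC

/-- the crossing argument -/
theorem crossing (y : ι → ℝ) (P0 : Finset ι) (hy : ∀ x ∈ P0, y x ≤ 1) (k L : ℕ)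
    (hL1 : 48 * k ≤ L) (hL2 : 5 * k ^ 2 ≤ 2 * L) (hL0 : 0 < L) (j : ℕ) : ∀ (P : Finset ι) (s0 : ℝ), P ⊆ P0 →
    j + 1 ≤ k → L + (j + 1) ≤ P.card → s0 < 1 → -1 ≤ s0 + ∑ x ∈ P, y x →
    sv y j P (fun s => if s0 + s ≤ -1 then 1 else 0) + s0
      ≤ 43 * sv y (j + 1) P (fun s => if 0 < s0 + s then 1 else 0) + (j + 1) * (2 / L) := by
  have hLr : (0 : ℝ) < L := by exact_mod_cast hL0
  have hδ : (0 : ℝ) < 2 / L := by positivity
  induction j with
  | zero =>
    intro P s0 hP _ hc hs0 htot
    rw [sv_zero, sv_succ]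
    simp only [sv_zero, add_zero, zero_add]
    have hcr : (L : ℝ) + 1 ≤ P.card := by exact_mod_cast hc
    have hP0 : (0 : ℝ) < P.card := by linarith
    set p := (∑ x ∈ P, (if 0 < s0 + y x then (1 : ℝ) else 0)) / P.card with hp
    have hpnn : 0 ≤ p := by
      apply div_nonneg _ hP0.le
      apply sum_nonneg
      intro x _
      split_ifs <;> norm_num
    have h1 : ∑ x ∈ P, (s0 + y x) ≤ 2 * (p * P.card) := by
      have e : p * P.card = ∑ x ∈ P, (if 0 < s0 + y x then (1 : ℝ) else 0) := by
        rw [hp]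
        field_simp
      rw [e, mul_sum]
      apply sum_le_sum
      intro x hx
      split_ifs with h
      · have := hy x (hP hx)
        linarith
      · linarith
    rw [sum_add_distrib, sum_const, nsmul_eq_mul] at h1
    have h2 : s0 ≤ 2 * p + 2 / L := by
      have h3 : (P.card : ℝ) * s0 ≤ 2 * (p * P.card) + 2 := by linarith
      have h4 : (P.card : ℝ) * (2 / L) ≥ 2 := by
        rw [ge_iff_le, mul_div_assoc', le_div_iff₀ hLr]
        nlinarith
      have h5 : (P.card : ℝ) * s0 ≤ P.card * (2 * p + 2 / L) := by nlinarith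
      exact le_of_mul_le_mul_left h5 hP0
    split_ifs with h
    · push_cast
      linarith
    · push_cast
      linarith
  | succ j ih =>
    intro P s0 hP hjk hc hs0 htot
    have hcr : (L : ℝ) + (j + 1 + 1) ≤ P.card := by exact_mod_cast hc
    have hj0 : (0 : ℝ) ≤ j := Nat.cast_nonneg j
    have hP0 : (0 : ℝ) < P.card := by linarith
    rw [sv_succ, sv_succ y (j + 1)]
    have hx : ∀ x ∈ P, sv y j (P.erase x) (fun s => if s0 + (s + y x) ≤ -1 then 1 else 0)
        + (s0 + y x) ≤ 43 * sv y (j + 1) (P.erase x) (fun s => if 0 < s0 + (s + y x) then 1 else 0)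
          + ((j : ℝ) + 1) * (2 / L) := by
      intro x hx
      have hyx := hy x (hP hx)
      have hsub : P.erase x ⊆ P0 := (erase_subset _ _).trans hP
      have hcard : L + (j + 1) ≤ (P.erase x).card := by
        rw [card_erase_of_mem hx]
        omega
      have htot' : -1 ≤ (s0 + y x) + ∑ z ∈ P.erase x, y z := by
        rw [add_assoc, add_sum_erase P y hx]
        exact htot
      rcases lt_or_ge (s0 + y x) 1 with hlt | hge
      · have h1 := ih (P.erase x) (s0 + y x) hsub (by omega) hcard hlt htot'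
        have e1 : (fun s : ℝ => if s0 + (s + y x) ≤ -1 then (1 : ℝ) else 0)
            = (fun s => if s0 + y x + s ≤ -1 then 1 else 0) := by
          funext s
          rw [show s0 + (s + y x) = s0 + y x + s by ring]
        have e2 : (fun s : ℝ => if 0 < s0 + (s + y x) then (1 : ℝ) else 0)
            = (fun s => if 0 < s0 + y x + s then 1 else 0) := by
          funext s
          rw [show s0 + (s + y x) = s0 + y x + s by ring]
        rw [e1, e2]
        exact h1
      · have h1 : sv y j (P.erase x) (fun s => if s0 + (s + y x) ≤ -1 then 1 else 0) ≤ 1 :=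
          sv_le_one y j _ _ (fun s => by split_ifs <;> norm_num)
        have h2 : 7 / 100 ≤ sv y (j + 1) (P.erase x) (fun s => ind 1 s) := by
          apply feige_sv
          · omega
          · calc 5 * (j + 1) ^ 2 ≤ 5 * k ^ 2 :=
                  Nat.mul_le_mul_left _ (Nat.pow_le_pow_left (by omega) 2)
              _ ≤ 2 * L := hL2
              _ ≤ _ := by omega
          · exact fun z hz => hy z (hsub hz)
          · linarith
        have h3 : sv y (j + 1) (P.erase x) (fun s => ind 1 s)
            ≤ sv y (j + 1) (P.erase x) (fun s => if 0 < s0 + (s + y x) then 1 else 0) := by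
          apply sv_mono
          intro s
          unfold ind
          split_ifs with h4 h5
          · exact le_rfl
          · exfalso
            apply h5
            linarith
          · norm_num
          · exact le_rfl
        have h4 : 0 ≤ ((j : ℝ) + 1) * (2 / L) := by positivity
        linarith
    have hsum := sum_le_sum hx
    rw [sum_add_distrib, sum_add_distrib, sum_add_distrib, sum_const, sum_const, nsmul_eq_mul,
      nsmul_eq_mul, ← mul_sum] at hsum
    set A := ∑ x ∈ P, sv y j (P.erase x) (fun s => if s0 + (s + y x) ≤ -1 then 1 else 0) with hA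
    set B := ∑ x ∈ P, sv y (j + 1) (P.erase x) (fun s => if 0 < s0 + (s + y x) then 1 else 0)
      with hB
    have h5 : (P.card : ℝ) * (2 / L) ≥ 2 := by
      rw [ge_iff_le, mul_div_assoc', le_div_iff₀ hLr]
      nlinarith
    have h6 : (A / P.card + s0) * P.card
        ≤ (43 * (B / P.card) + (((j + 1 : ℕ) : ℝ) + 1) * (2 / L)) * P.card := by
      have e1 : (A / P.card + s0) * P.card = A + P.card * s0 := by
        field_simp
      have e2 : (43 * (B / P.card) + (((j + 1 : ℕ) : ℝ) + 1) * (2 / L)) * P.card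
          = 43 * B + P.card * (((j : ℝ) + 1) * (2 / L)) + P.card * (2 / L) := by
        push_cast
        field_simp
        ring
      rw [e1, e2]
      linarith
    exact le_of_mul_le_mul_right h6 hP0

end

end AK
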