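import Pool.Agent.Helper80.AK.Main
import Pool.Agent.Helper80.AK.Samp

/-!
# Random blocks: if some `κ`-set is lethal then a proportion of about `k / N` of the `k`-sets is
nonlethal
-/

set_option autoImplicit false

namespace AK

open Finset K3

/-- the blocks of length `k` of `Fin (q * k)` -/
theorem blocks (q k : ℕ) (g : Fin (q * k) → ℝ) (hs : ∑ x, g x < q) :
    (q * k).choose k ≤ q * ((powersetCard k (univ : Finset (Fin (q * k)))).filter
      (fun V => ∑ x ∈ V, g x < 1)).card := by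
  classical
  set F : Finset (Fin (q * k)) → ℕ := fun V => if ∑ x ∈ V, g x < 1 then 1 else 0 with hF
  have hB : ((powersetCard k (univ : Finset (Fin (q * k)))).filter
      (fun V => ∑ x ∈ V, g x < 1)).card
      = ∑ J ∈ powersetCard k (univ : Finset (Fin (q * k))), F J := by
    rw [card_filter]
  rw [hB]
  set I : Fin q → Finset (Fin (q * k)) := fun b =>
    (univ : Finset (Fin k)).map ⟨fun j => finProdFinEquiv (b, j), fun a c h => by
      have := finProdFinEquiv.injective h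
      simpa using this⟩ with hI
  have hIc : ∀ b, (I b).card = k := by
    intro b
    rw [hI]
    simp
  have hIs : ∀ f : Fin (q * k) → ℝ, ∑ b, ∑ x ∈ I b, f x = ∑ x, f x := by
    intro f
    rw [← Equiv.sum_comp finProdFinEquiv f, Fintype.sum_prod_type]
    apply sum_congr rfl
    intro b _
    simp only [hI, sum_map]
    rfl
  -- every permutation has a nonlethal block
  have h1 : ∀ σ : Equiv.Perm (Fin (q * k)), 1 ≤ ∑ b, F ((I b).map σ.toEmbedding) := by
    intro σ
    by_contra hcon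
    have h2 : ∀ b, F ((I b).map σ.toEmbedding) = 0 := by
      have : ∑ b, F ((I b).map σ.toEmbedding) = 0 := by omega
      rw [sum_eq_zero_iff] at this
      exact fun b => this b (mem_univ b)
    have h3 : ∀ b, 1 ≤ ∑ x ∈ I b, g (σ x) := by
      intro b
      have := h2 b
      simp only [hF] at this
      split_ifs at this with h4
      rw [sum_map] at h4
      push Not at h4
      exact h4
    have h5 := hIs (fun x => g (σ x))
    rw [Equiv.sum_comp σ g] at h5
    have h6 : (q : ℝ) ≤ ∑ b, ∑ x ∈ I b, g (σ x) := by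
      calc (q : ℝ) = ∑ b : Fin q, (1 : ℝ) := by simp
        _ ≤ _ := sum_le_sum (fun b _ => h3 b)
    linarith
  have h2 : (q * k).factorial ≤ ∑ b, ∑ σ : Equiv.Perm (Fin (q * k)),
      F ((I b).map σ.toEmbedding) := by
    rw [sum_comm]
    calc (q * k).factorial = ∑ σ : Equiv.Perm (Fin (q * k)), 1 := by
          rw [sum_const, card_univ, Fintype.card_perm, Fintype.card_fin, smul_eq_mul, mul_one]
      _ ≤ _ := sum_le_sum (fun σ _ => h1 σ)
  have h3 : (q * k).choose k * (q * k).factorial ≤ q * ((q * k).factorial *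
      ∑ J ∈ powersetCard k (univ : Finset (Fin (q * k))), F J) := by
    calc (q * k).choose k * (q * k).factorial
        ≤ (q * k).choose k * ∑ b, ∑ σ : Equiv.Perm (Fin (q * k)),
          F ((I b).map σ.toEmbedding) := Nat.mul_le_mul_left _ h2
      _ = ∑ b, (q * k).choose k * ∑ σ : Equiv.Perm (Fin (q * k)),
          F ((I b).map σ.toEmbedding) := mul_sum _ _ _
      _ = ∑ b : Fin q, (q * k).factorial *
          ∑ J ∈ powersetCard k (univ : Finset (Fin (q * k))), F J :=
          sum_congr rfl (fun b _ => perm_count F (hIc b))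
      _ = _ := by rw [sum_const, card_univ, Fintype.card_fin, smul_eq_mul]
  have h4 : (q * k).factorial * (q * k).choose k ≤ (q * k).factorial *
      (q * ∑ J ∈ powersetCard k (univ : Finset (Fin (q * k))), F J) := by
    calc (q * k).factorial * (q * k).choose k = (q * k).choose k * (q * k).factorial :=
          mul_comm _ _
      _ ≤ _ := h3
      _ = _ := by ring
  exact Nat.le_of_mul_le_mul_left h4 (Nat.factorial_pos _)

section
variable {ι : Type*} [DecidableEq ι]

/-- the same for a set of size `q * k` -/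
theorem blocks_set (R : Finset ι) (q k : ℕ) (hR : R.card = q * k) (g : ι → ℝ)
    (hs : ∑ x ∈ R, g x < q) : (q * k).choose k ≤ q * nl k g R := by
  classical
  obtain ⟨e, he, _⟩ := exists_sorted (q * k) g R hR
  have hw := blocks q k (fun x => g (e x)) (by
    have h1 : ∑ x, g (e x) = ∑ x ∈ R, g x := by
      rw [← he, sum_map]
    rw [h1]
    exact hs)
  refine hw.trans (Nat.mul_le_mul_left _ (le_of_eq ?_))
  have h3 := cnt_add_nl k g R
  have h4 := cnt_add_nl k (fun x => g (e x)) (univ : Finset (Fin (q * k)))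
  have h5 : cnt 1 k g R = cnt 1 k (fun x => g (e x)) univ := by
    rw [← he, cnt_map]
  rw [card_univ, Fintype.card_fin] at h4
  rw [hR] at h3
  have h6 : nl k g R = nl k (fun x => g (e x)) univ := by omega
  rw [h6]
  rfl

/-- the elements with the smallest doses have small average -/
theorem exists_light (R : Finset ι) (g : ι → ℝ) (r : ℕ) (hr : r < R.card) :
    ∃ Q, Q ⊆ R ∧ Q.card + r = R.card ∧
      (R.card : ℝ) * ∑ x ∈ Q, g x ≤ Q.card * ∑ x ∈ R, g x := by
  obtain ⟨Q, hQR, hQc, hQ⟩ := top_part R (fun x => -g x) r hr.le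
  refine ⟨Q, hQR, hQc, ?_⟩
  have hQne : Q.Nonempty := card_pos.1 (by omega)
  obtain ⟨x0, hx0, hmax⟩ := exists_max_image Q g hQne
  have h1 : ∑ x ∈ Q, g x ≤ Q.card * g x0 := by
    calc ∑ x ∈ Q, g x ≤ ∑ x ∈ Q, g x0 := sum_le_sum hmax
      _ = _ := by simp
  have h2 : (r : ℝ) * g x0 ≤ ∑ x ∈ R \ Q, g x := by
    have h3 : (R \ Q).card = r := by
      rw [card_sdiff_of_subset hQR]
      omega
    calc (r : ℝ) * g x0 = ∑ x ∈ R \ Q, g x0 := by rw [sum_const, h3, nsmul_eq_mul]
      _ ≤ _ := sum_le_sum (fun z hz => by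
          have := hQ x0 hx0 z hz
          linarith)
  have h3 := sum_sdiff (f := g) hQR
  have h4 : (R.card : ℝ) = Q.card + r := by exact_mod_cast hQc.symm
  rw [← h3, h4]
  have hr0 : (0 : ℝ) ≤ r := Nat.cast_nonneg r
  have hq0 : (0 : ℝ) ≤ Q.card := Nat.cast_nonneg _
  have h5 : (r : ℝ) * ∑ x ∈ Q, g x ≤ r * (Q.card * g x0) := mul_le_mul_of_nonneg_left h1 hr0
  have h6 : (Q.card : ℝ) * (r * g x0) ≤ Q.card * ∑ x ∈ R \ Q, g x :=
    mul_le_mul_of_nonneg_left h2 hq0
  nlinarith

/-- some lethal `κ`-set makes many `(κ + 1)`-sets nonlethal -/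
theorem bound_blocks (Q : Finset ι) (g : ι → ℝ) (κ N : ℕ) (hN : Q.card = N) (hk : 2 * κ + 1 ≤ N)
    (hs : ((κ : ℝ) + 1) * ∑ x ∈ Q, g x < (N : ℝ) + 1) (hL : 0 < cnt 1 κ g Q) :
    ((N - κ) / (κ + 1) * (κ + 1)).choose (κ + 1)
      ≤ (N - κ) / (κ + 1) * nl (κ + 1) g Q := by
  classical
  unfold cnt at hL
  obtain ⟨W, hW⟩ := card_pos.1 hL
  rw [mem_filter, mem_powersetCard] at hW
  obtain ⟨⟨hWQ, hWc⟩, hWl⟩ := hW
  have hRc : (Q \ W).card = N - κ := by rw [card_sdiff_of_subset hWQ, hN, hWc]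
  have hsum : ∑ x ∈ Q \ W, g x = ∑ x ∈ Q, g x - ∑ x ∈ W, g x := by
    rw [← sum_sdiff hWQ]
    ring
  have hcast : ((N - κ : ℕ) : ℝ) = (N : ℝ) - κ := by
    rw [Nat.cast_sub (by omega)]
  set q := (N - κ) / (κ + 1) with hq
  have hq1 : q * (κ + 1) ≤ N - κ := Nat.div_mul_le_self _ _
  have hq0 : 0 < q := Nat.div_pos (by omega) (by omega)
  have hqk : 0 < q * (κ + 1) := Nat.mul_pos hq0 (by omega)
  obtain ⟨R, hRQ, hRc', hRs⟩ := exists_light (Q \ W) g (N - κ - q * (κ + 1)) (by omega)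
  have hRcard : R.card = q * (κ + 1) := by omega
  have hk0 : (0 : ℝ) < (κ : ℝ) + 1 := by positivity
  have hM0 : (0 : ℝ) < ((N - κ : ℕ) : ℝ) := by
    have : 0 < N - κ := by omega
    exact_mod_cast this
  have hlt : ((κ : ℝ) + 1) * ∑ x ∈ Q \ W, g x < ((N - κ : ℕ) : ℝ) := by
    rw [hsum, hcast]
    have h2 : ((κ : ℝ) + 1) * 1 ≤ ((κ : ℝ) + 1) * ∑ x ∈ W, g x :=
      mul_le_mul_of_nonneg_left hWl hk0.le
    linarith
  have hRlt : ∑ x ∈ R, g x < q := by
    rw [hRc, hRcard] at hRs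
    push_cast at hRs
    have h3 : ((N - κ : ℕ) : ℝ) * ∑ x ∈ R, g x < ((N - κ : ℕ) : ℝ) * q := by
      have hq0r : (0 : ℝ) < q := by exact_mod_cast hq0
      calc ((N - κ : ℕ) : ℝ) * ∑ x ∈ R, g x ≤ (q * ((κ : ℝ) + 1)) * ∑ x ∈ Q \ W, g x := hRs
        _ = q * (((κ : ℝ) + 1) * ∑ x ∈ Q \ W, g x) := by ring
        _ < q * ((N - κ : ℕ) : ℝ) := mul_lt_mul_of_pos_left hlt hq0r
        _ = _ := mul_comm _ _
    exact lt_of_mul_lt_mul_left h3 hM0.le
  refine (blocks_set R q (κ + 1) hRcard g hRlt).trans (Nat.mul_le_mul_left _ ?_)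
  exact nl_mono (κ + 1) g (hRQ.trans sdiff_subset)

end

end AK
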