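import Pool.Agent.Helper80.AK.Main

/-!
# For `n ≥ (1 + 1 / k) ⌊k h⌋` the `1 / k`-distribution is not optimal
-/

set_option autoImplicit false

namespace AK

open Finset K3

/-- comparison of binomial coefficients with powers -/
theorem choose_ratio {m n : ℕ} (h : m ≤ n) (k : ℕ) :
    m.choose k * n ^ k ≤ n.choose k * m ^ k := by
  induction k with
  | zero => simp
  | succ k ih =>
    have h1 : (m - k) * n ≤ (n - k) * m := by
      rcases Nat.lt_or_ge m k with hlt | hge
      · rw [show m - k = 0 by omega]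
        simp
      · zify [hge, hge.trans h]
        nlinarith
    have h2 : (m.choose (k + 1) * n ^ (k + 1)) * (k + 1)
        ≤ (n.choose (k + 1) * m ^ (k + 1)) * (k + 1) := by
      calc (m.choose (k + 1) * n ^ (k + 1)) * (k + 1)
          = (m.choose (k + 1) * (k + 1)) * n ^ (k + 1) := by ring
        _ = (m.choose k * (m - k)) * n ^ (k + 1) := by rw [Nat.choose_succ_right_eq]
        _ = (m.choose k * n ^ k) * ((m - k) * n) := by ring
        _ ≤ (n.choose k * m ^ k) * ((n - k) * m) := Nat.mul_le_mul ih h1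
        _ = (n.choose k * (n - k)) * m ^ (k + 1) := by ring
        _ = (n.choose (k + 1) * (k + 1)) * m ^ (k + 1) := by rw [Nat.choose_succ_right_eq]
        _ = _ := by ring
    exact Nat.le_of_mul_le_mul_right h2 (by omega)

theorem choose_ratio' {m n : ℕ} (h : m ≤ n) (hn : 0 < n) (k : ℕ) :
    (m.choose k : ℝ) ≤ n.choose k * ((m : ℝ) / n) ^ k := by
  have hn0 : (0 : ℝ) < (n : ℝ) ^ k := by positivity
  rw [div_pow, ← mul_div_assoc, le_div_iff₀ hn0]
  exact_mod_cast choose_ratio h k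

/-- the binomial theorem up to the second order -/
theorem two_le_pow (x : ℝ) (hx : 0 ≤ x) (k : ℕ) :
    1 + k * x + (k * (k - 1)) / 2 * x ^ 2 ≤ (1 + x) ^ k := by
  induction k with
  | zero => simp
  | succ k ih =>
    have h0 : (1 + x) ^ (k + 1) = (1 + x) ^ k * (1 + x) := pow_succ _ _
    rw [h0]
    push_cast
    have hk : (0 : ℝ) ≤ k := Nat.cast_nonneg k
    have h1 : (1 + (k : ℝ) * x + (k * (k - 1)) / 2 * x ^ 2) * (1 + x)
        ≤ (1 + x) ^ k * (1 + x) := mul_le_mul_of_nonneg_right ih (by linarith)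
    have h2 : 0 ≤ (k : ℝ) * (k - 1) * x ^ 3 := by
      rcases Nat.eq_zero_or_pos k with rfl | hk1
      · simp
      · have : (1 : ℝ) ≤ k := by exact_mod_cast hk1
        have h3 : 0 ≤ (k : ℝ) * (k - 1) := mul_nonneg hk (by linarith)
        positivity
    nlinarith

theorem pow_ratio_le {k : ℕ} (hk : 2 ≤ k) : ((k : ℝ) / (k + 1)) ^ k ≤ 4 / 9 := by
  have hk2 : (2 : ℝ) ≤ k := by exact_mod_cast hk
  have hk0 : (0 : ℝ) < k := by linarith
  have h1 := two_le_pow (1 / k) (by positivity) k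
  have h2 : 9 / 4 ≤ 1 + (k : ℝ) * (1 / k) + (k * (k - 1)) / 2 * (1 / k) ^ 2 := by
    have e : 1 + (k : ℝ) * (1 / k) + (k * (k - 1)) / 2 * (1 / k) ^ 2 = 5 / 2 - 1 / (2 * k) := by
      field_simp
      ring
    rw [e]
    have : 1 / (2 * (k : ℝ)) ≤ 1 / 4 := by
      apply one_div_le_one_div_of_le (by norm_num)
      linarith
    linarith
  have h3 : 9 / 4 ≤ (1 + 1 / (k : ℝ)) ^ k := h2.trans h1
  have h4 : ((k : ℝ) / (k + 1)) ^ k * (1 + 1 / (k : ℝ)) ^ k = 1 := by
    rw [← mul_pow]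
    have : (k : ℝ) / (k + 1) * (1 + 1 / k) = 1 := by
      field_simp
    rw [this, one_pow]
  have h5 : 0 ≤ ((k : ℝ) / (k + 1)) ^ k := by positivity
  nlinarith

/-- convexity of the power -/
theorem pow_conv {t u : ℝ} (ht0 : 0 ≤ t) (ht1 : t ≤ 1) (hu : 0 ≤ u) (k : ℕ) :
    ((1 - t) + t * u) ^ k ≤ (1 - t) + t * u ^ k := by
  have h := (convexOn_pow k).2 (Set.mem_Ici.2 (zero_le_one : (0 : ℝ) ≤ 1)) (Set.mem_Ici.2 hu)
    (sub_nonneg.2 ht1) ht0 (by ring)
  simp only [smul_eq_mul, mul_one, one_pow] at h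
  exact h

theorem pow_sub_le {a b : ℝ} (hb : 0 ≤ b) (hab : b ≤ a) (ha : a ≤ 1) (k : ℕ) :
    a ^ k ≤ b ^ k + k * (a - b) := by
  induction k with
  | zero => simp
  | succ k ih =>
    have ha0 : 0 ≤ a := hb.trans hab
    have hk : (0 : ℝ) ≤ k := Nat.cast_nonneg k
    rw [pow_succ, pow_succ]
    push_cast
    have h1 : a ^ k * a ≤ (b ^ k + k * (a - b)) * a := mul_le_mul_of_nonneg_right ih ha0
    have h2 : b ^ k ≤ 1 := pow_le_one₀ hb (hab.trans ha)
    have h3 : b ^ k * (a - b) ≤ 1 * (a - b) := mul_le_mul_of_nonneg_right h2 (by linarith)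
    have h4 : (k * (a - b)) * a ≤ (k * (a - b)) * 1 :=
      mul_le_mul_of_nonneg_left ha (mul_nonneg hk (by linarith))
    nlinarith

/-- the comparison of the two distributions -/
theorem compare {k n N s : ℕ} (hk : 2 ≤ k) (hN : 9 * k ≤ N) (hn : (k + 1) * N ≤ k * n)
    (hs : N < k * s + k) (hsn : s ≤ n) :
    N.choose k + (n - s).choose k < n.choose k := by
  have hk2 : (2 : ℝ) ≤ k := by exact_mod_cast hk
  have hk0 : (0 : ℝ) < k := by linarith
  have hNr : 9 * (k : ℝ) ≤ N := by exact_mod_cast hN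
  have hN0 : (0 : ℝ) < N := by linarith
  have hnr : ((k : ℝ) + 1) * N ≤ k * n := by exact_mod_cast hn
  have hNn' : (N : ℝ) ≤ n := by nlinarith
  have hNn : N ≤ n := by exact_mod_cast hNn'
  have hn0 : (0 : ℝ) < n := by linarith
  have hn0' : 0 < n := by exact_mod_cast hn0
  have hC : (0 : ℝ) < n.choose k := by exact_mod_cast Nat.choose_pos (by omega)
  have hsr : (N : ℝ) - k + 1 ≤ k * s := by
    have : N + 1 ≤ k * s + k := hs
    have h2 : (N : ℝ) + 1 ≤ k * s + k := by exact_mod_cast this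
    linarith
  set u : ℝ := (k : ℝ) / (k + 1) with hu
  have hu0 : 0 ≤ u := by positivity
  have hu4 : u ^ k ≤ 4 / 9 := pow_ratio_le hk
  have huk0 : 0 ≤ u ^ k := by positivity
  set t : ℝ := (N : ℝ) / (n * u) with ht
  have hupos : 0 < u := by positivity
  have htu : t * u = (N : ℝ) / n := by
    rw [ht]
    field_simp
  have ht0 : 0 ≤ t := by positivity
  have ht1 : t ≤ 1 := by
    rw [ht, div_le_one (by positivity), hu, mul_div_assoc', le_div_iff₀ (by positivity)]
    linarith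
  -- the clique
  have h1 : (N.choose k : ℝ) ≤ n.choose k * (t * u ^ k) := by
    refine (choose_ratio' hNn hn0' k).trans ?_
    apply mul_le_mul_of_nonneg_left _ hC.le
    rw [← htu, mul_pow]
    apply mul_le_mul_of_nonneg_right _ huk0
    exact pow_le_of_le_one ht0 ht1 (by omega)
  -- the star
  have hcast : ((n - s : ℕ) : ℝ) = (n : ℝ) - s := by rw [Nat.cast_sub hsn]
  have hs0 : (0 : ℝ) ≤ s := Nat.cast_nonneg s
  have hA : (1 - t) + t * u = 1 - t / (k + 1) := by
    rw [hu]
    field_simp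
    ring_nf
  have htk : t / (k + 1) = N / (k * n) := by
    rw [ht, hu]
    field_simp
  have h2 : ((n - s : ℕ) : ℝ) / n ≤ (1 - t) + t * u + (k - 1) / (k * n) := by
    rw [hA, htk, hcast]
    have e : (1 : ℝ) - N / (k * n) + (k - 1) / (k * n) = (k * n - N + (k - 1)) / (k * n) := by
      field_simp
    rw [e, div_le_div_iff₀ hn0 (by positivity)]
    nlinarith
  have hAle : (1 - t) + t * u + ((k : ℝ) - 1) / (k * n) ≤ 1 := by
    rw [hA, htk]
    have : ((k : ℝ) - 1) / (k * n) ≤ N / (k * n) := by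
      apply div_le_div_of_nonneg_right _ (by positivity)
      linarith
    linarith
  have hA0 : 0 ≤ (1 - t) + t * u := by
    have : 0 ≤ t * u := by positivity
    linarith
  have hε : 0 ≤ ((k : ℝ) - 1) / (k * n) := by
    apply div_nonneg (by linarith) (by positivity)
  have h3 : (((n - s : ℕ) : ℝ) / n) ^ k ≤ (1 - t) + t * u ^ k + (k - 1) / n := by
    calc (((n - s : ℕ) : ℝ) / n) ^ k ≤ ((1 - t) + t * u + (k - 1) / (k * n)) ^ k :=
          pow_le_pow_left₀ (by positivity) h2 k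
      _ ≤ ((1 - t) + t * u) ^ k + k * ((1 - t) + t * u + (k - 1) / (k * n) - ((1 - t) + t * u)) :=
          pow_sub_le hA0 (by linarith) hAle k
      _ = ((1 - t) + t * u) ^ k + (k - 1) / n := by
          congr 1
          field_simp
          ring
      _ ≤ _ := by
          have := pow_conv ht0 ht1 hu0 k
          linarith
  have h4 : (((n - s).choose k : ℕ) : ℝ) ≤ n.choose k * ((1 - t) + t * u ^ k + (k - 1) / n) :=
    (choose_ratio' (Nat.sub_le n s) hn0' k).trans (mul_le_mul_of_nonneg_left h3 hC.le)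
  have h5 : ((k : ℝ) - 1) / n < t * (1 - 2 * u ^ k) := by
    have h6 : t * (1 / 9) ≤ t * (1 - 2 * u ^ k) := mul_le_mul_of_nonneg_left (by linarith) ht0
    refine lt_of_lt_of_le ?_ h6
    have e : t * (1 / 9) = (N * (k + 1) / (9 * k)) / n := by
      rw [ht, hu]
      field_simp
    rw [e]
    apply div_lt_div_of_pos_right _ hn0
    rw [lt_div_iff₀ (by positivity)]
    have h7 : 9 * (k : ℝ) * (k + 1) ≤ N * (k + 1) :=
      mul_le_mul_of_nonneg_right hNr (by linarith)
    nlinarith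
  have h8 : (N.choose k : ℝ) + ((n - s).choose k : ℕ) < n.choose k := by
    have h9 : (N.choose k : ℝ) + ((n - s).choose k : ℕ)
        ≤ n.choose k * (1 - (t * (1 - 2 * u ^ k) - (k - 1) / n)) := by
      have e : (n.choose k : ℝ) * (1 - (t * (1 - 2 * u ^ k) - (k - 1) / n))
          = n.choose k * (t * u ^ k) + n.choose k * ((1 - t) + t * u ^ k + (k - 1) / n) := by ring
      rw [e]
      exact add_le_add h1 h4
    refine lt_of_le_of_lt h9 ?_
    have h10 : (n.choose k : ℝ) * (1 - (t * (1 - 2 * u ^ k) - (k - 1) / n)) < n.choose k * 1 :=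
      mul_lt_mul_of_pos_left (by linarith) hC
    linarith
  exact_mod_cast h8

/-- the number of lethal sets of the `1 / k`-distribution -/
theorem dist_k_le {n m k : ℕ} (hk : 0 < k) (hm : m ≤ n) :
    cnt 1 k (fun i : Fin n => if i.val < m then (1 : ℝ) / (k : ℝ) else 0) univ ≤ m.choose k := by
  unfold cnt
  rw [← card_lt_filter' hm, ← card_powersetCard]
  apply card_le_card
  intro V hV
  rw [mem_filter, mem_powersetCard, card_lt_filter' hm] at hV
  rw [mem_powersetCard]
  refine ⟨?_, hV.1.2⟩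
  have hk0 : (0 : ℝ) < k := by exact_mod_cast hk
  have h1 := hV.2
  rw [← sum_filter, sum_const, nsmul_eq_mul, mul_one_div, le_div_iff₀ hk0, one_mul] at h1
  have h2 : k ≤ (V.filter (fun i => i.val < m)).card := by exact_mod_cast h1
  have h3 : V.filter (fun i => i.val < m) = V := by
    apply eq_of_subset_of_card_le (filter_subset _ _)
    rw [hV.1.2]
    exact h2
  intro i hi
  rw [← h3, mem_filter] at hi
  rw [mem_filter]
  exact ⟨mem_univ _, hi.2⟩

/-- the number of lethal sets of the `1`-distribution -/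
theorem dist_one_ge {n m k : ℕ} (hm : m ≤ n) :
    n.choose k - (n - m).choose k
      ≤ cnt 1 k (fun i : Fin n => if i.val < m then (1 : ℝ) / ((1 : ℕ) : ℝ) else 0) univ := by
  classical
  have h1 : n.choose k = (powersetCard k (univ : Finset (Fin n))).card := by
    rw [card_powersetCard, card_univ, Fintype.card_fin]
  have h2 : (n - m).choose k
      = (powersetCard k ((univ : Finset (Fin n)).filter (fun i => ¬ i.val < m))).card := by
    rw [card_powersetCard, filter_not, card_sdiff_of_subset (filter_subset _ _), card_lt_filter' hm,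
      card_univ, Fintype.card_fin]
  rw [Nat.sub_le_iff_le_add, h1, h2]
  unfold cnt
  rw [← card_filter_add_card_filter_not (s := powersetCard k (univ : Finset (Fin n)))
    (fun V => (1 : ℝ) ≤ ∑ i ∈ V, (if i.val < m then (1 : ℝ) / ((1 : ℕ) : ℝ) else 0))]
  gcongr
  intro V hV
  rw [mem_filter, mem_powersetCard] at hV
  rw [mem_powersetCard]
  refine ⟨?_, hV.1.2⟩
  intro i hi
  rw [mem_filter]
  refine ⟨mem_univ _, ?_⟩
  intro him
  apply hV.2
  have := single_le_sum (f := fun i : Fin n => (if i.val < m then (1 : ℝ) / ((1 : ℕ) : ℝ) else 0))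
    (s := V) (fun j _ => by split_ifs <;> simp) hi
  simpa [him] using this

/-- the `1 / k`-distribution is beaten by the `1`-distribution -/
theorem beaten (k n : ℕ) (hk : 2 ≤ k) (h : ℝ) (hh : 0 ≤ h) (hN : 9 * k ≤ ⌊h * (k : ℝ)⌋₊)
    (hn : (k + 1) * ⌊h * (k : ℝ)⌋₊ ≤ k * n) :
    Set.ncard {V : Finset (Fin n) | V.card = k ∧ (1 : ℝ) ≤ ∑ i ∈ V,
        (if i.val < min n ⌊h * (k : ℝ)⌋₊ then (1 : ℝ) / (k : ℝ) else 0)} <
      Set.ncard {V : Finset (Fin n) | V.card = k ∧ (1 : ℝ) ≤ ∑ i ∈ V,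
        (if i.val < min n ⌊h * ((1 : ℕ) : ℝ)⌋₊ then (1 : ℝ) / ((1 : ℕ) : ℝ) else 0)} := by
  set N := ⌊h * (k : ℝ)⌋₊ with hNdef
  have hk0 : (0 : ℝ) < k := by
    have : 0 < k := by omega
    exact_mod_cast this
  have hNn : N ≤ n := by nlinarith
  have hs1 : ⌊h * ((1 : ℕ) : ℝ)⌋₊ = ⌊h⌋₊ := by norm_num
  have hsN : ⌊h⌋₊ ≤ N := by
    apply Nat.floor_le_floor
    have : (1 : ℝ) ≤ k := by
      have : 1 ≤ k := by omega
      exact_mod_cast this
    nlinarith
  rw [ncard_eq_cnt', ncard_eq_cnt', hs1, min_eq_right hNn, min_eq_right (hsN.trans hNn)]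
  refine lt_of_le_of_lt (dist_k_le (by omega) hNn) (lt_of_lt_of_le ?_ (dist_one_ge
    (hsN.trans hNn)))
  have hs2 : N < k * ⌊h⌋₊ + k := by
    have h1 := Nat.lt_floor_add_one h
    have h2 : (N : ℝ) ≤ h * k := Nat.floor_le (by positivity)
    have h3 : (N : ℝ) < k * ⌊h⌋₊ + k := by nlinarith
    exact_mod_cast h3
  have := compare hk hN hn hs2 (hsN.trans hNn)
  omega

end AK
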