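import Pool.Agent.Helper80.AK.Blk

/-!
# A random `j`-subset of a population with values at most `1` and almost nonnegative mean has sum
greater than `-1` with probability at least `7 / 100`
-/

set_option autoImplicit false

namespace AK

open Finset K3

/-- avoiding `r` elements -/
theorem choose_avoid (M j : ℕ) (hM : 0 < M) : ∀ r : ℕ, r ≤ M →
    (M.choose j : ℝ) * (1 - j * r / M) ≤ ((M - r).choose j : ℝ) := by
  have hM0 : (0 : ℝ) < M := by exact_mod_cast hM
  intro r
  induction r with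
  | zero => intro _; simp
  | succ r ih =>
    intro hr
    have h1 := ih (by omega)
    rcases Nat.eq_zero_or_pos j with rfl | hj
    · simp
    obtain ⟨i, rfl⟩ : ∃ i, j = i + 1 := ⟨j - 1, by omega⟩
    have h2 : (M - r).choose (i + 1) = (M - (r + 1)).choose i + (M - (r + 1)).choose (i + 1) := by
      rw [show M - r = (M - (r + 1)) + 1 by omega, Nat.choose_succ_succ' (M - (r + 1)) i]
    have h3 : (M - (r + 1)).choose i ≤ (M - 1).choose i :=
      Nat.choose_le_choose _ (by omega)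
    have h4 : ((M - 1).choose i : ℝ) * M = (M.choose (i + 1) : ℝ) * ((i : ℝ) + 1) := by
      have h5 := Nat.add_one_mul_choose_eq (M - 1) i
      rw [show M - 1 + 1 = M by omega] at h5
      have h6 : ((M * (M - 1).choose i : ℕ) : ℝ) = ((M.choose (i + 1) * (i + 1) : ℕ) : ℝ) := by
        rw [h5]
      push_cast at h6
      rw [mul_comm]
      exact h6
    have h5 : ((M - 1).choose i : ℝ) = (M.choose (i + 1) : ℝ) * (((i : ℝ) + 1) / M) := by
      rw [mul_div_assoc', eq_div_iff hM0.ne']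
      exact h4
    have h6 : ((M - r).choose (i + 1) : ℝ) = ((M - (r + 1)).choose i : ℝ)
        + ((M - (r + 1)).choose (i + 1) : ℝ) := by exact_mod_cast h2
    have h7 : ((M - (r + 1)).choose i : ℝ) ≤ ((M - 1).choose i : ℝ) := by exact_mod_cast h3
    have e : (M.choose (i + 1) : ℝ) * (1 - ((i + 1 : ℕ) : ℝ) * ((r + 1 : ℕ) : ℝ) / M)
        = (M.choose (i + 1) : ℝ) * (1 - ((i + 1 : ℕ) : ℝ) * (r : ℝ) / M)
          - (M.choose (i + 1) : ℝ) * (((i : ℝ) + 1) / M) := by
      push_cast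
      field_simp
      ring
    rw [e]
    linarith

section
variable {ι : Type*} [DecidableEq ι]

/-- removing the `r` smallest values -/
theorem top_part (P : Finset ι) (f : ι → ℝ) (r : ℕ) : r ≤ P.card →
    ∃ Q, Q ⊆ P ∧ Q.card + r = P.card ∧ ∀ x ∈ Q, ∀ z ∈ P \ Q, f z ≤ f x := by
  induction r with
  | zero =>
    intro _
    refine ⟨P, Subset.refl P, rfl, ?_⟩
    intro x _ z hz
    simp at hz
  | succ r ih =>
    intro hr
    obtain ⟨Q, hQP, hQc, hQ⟩ := ih (by omega)
    have hne : Q.Nonempty := card_pos.1 (by omega)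
    obtain ⟨z0, hz0, hmin⟩ := exists_min_image Q f hne
    refine ⟨Q.erase z0, (erase_subset _ _).trans hQP, ?_, ?_⟩
    · rw [card_erase_of_mem hz0]
      have : 0 < Q.card := hne.card_pos
      omega
    · intro x hx z hz
      rw [mem_sdiff, mem_erase, not_and_or, not_not] at hz
      rcases hz.2 with rfl | h1
      · exact hmin x (mem_of_mem_erase hx)
      · exact hQ x (mem_of_mem_erase hx) z (mem_sdiff.2 ⟨hz.1, h1⟩)

/-- the lower bound -/
theorem feige_set (P : Finset ι) (y : ι → ℝ) (j : ℕ) (hj : 1 ≤ j) (hM1 : 48 * j ≤ P.card)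
    (hM2 : 5 * j ^ 2 ≤ 2 * P.card) (hy : ∀ x ∈ P, y x ≤ 1) (hs : -3 ≤ ∑ x ∈ P, y x) :
    7 / 100 * (P.card.choose j : ℝ) ≤ (((powersetCard j P).filter
      (fun V => -1 < ∑ x ∈ V, y x)).card : ℝ) := by
  obtain ⟨M, hM⟩ : ∃ M, M = P.card := ⟨_, rfl⟩
  rw [← hM] at hM1 hM2 ⊢
  obtain ⟨r, hr⟩ : ∃ r, r = M / (3 * j) := ⟨_, rfl⟩
  have hr1 : 3 * j * r ≤ M := by rw [hr]; exact Nat.mul_div_le _ _
  have hr2 : M < 3 * j * (r + 1) := by rw [hr]; exact Nat.lt_mul_div_succ _ (by omega)
  have hrM : r ≤ M := by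
    calc r = 1 * r := (one_mul r).symm
      _ ≤ 3 * j * r := Nat.mul_le_mul_right _ (by omega)
      _ ≤ M := hr1
  obtain ⟨Q, hQP, hQc, hQ⟩ := top_part P y r (by omega)
  rw [← hM] at hQc
  have hj1 : (1 : ℝ) ≤ j := by exact_mod_cast hj
  have hMr : 48 * (j : ℝ) ≤ M := by exact_mod_cast hM1
  have hMr2 : 5 * (j : ℝ) ^ 2 ≤ 2 * M := by exact_mod_cast hM2
  have hr1r : 3 * (j : ℝ) * r ≤ M := by exact_mod_cast hr1
  have hr2r : (M : ℝ) ≤ 3 * j * (r + 1) := by exact_mod_cast hr2.le
  have hr0 : (0 : ℝ) ≤ r := Nat.cast_nonneg r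
  have hM0 : (0 : ℝ) < M := by linarith
  have hM0' : 0 < M := by exact_mod_cast hM0
  have hQr : (Q.card : ℝ) = M - r := by
    have : (Q.card : ℝ) + r = M := by exact_mod_cast hQc
    linarith
  have hQn : Q.card = M - r := by omega
  have hrM3 : 3 * (r : ℝ) ≤ M := by nlinarith
  have hQpos : (0 : ℝ) < Q.card := by rw [hQr]; linarith
  have hQne : Q.Nonempty := card_pos.1 (by exact_mod_cast hQpos)
  -- avoiding the smallest values
  have hav : 2 / 3 * (M.choose j : ℝ) ≤ (Q.card.choose j : ℝ) := by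
    have h1 := choose_avoid M j hM0' r hrM
    rw [← hQn] at h1
    have h2 : (j : ℝ) * r / M ≤ 1 / 3 := by
      rw [div_le_div_iff₀ hM0 (by norm_num)]
      linarith
    have h3 : (M.choose j : ℝ) * (2 / 3) ≤ (M.choose j : ℝ) * (1 - (j : ℝ) * r / M) :=
      mul_le_mul_of_nonneg_left (by linarith) (Nat.cast_nonneg _)
    linarith
  have hmono : (((powersetCard j Q).filter (fun V => -1 < ∑ x ∈ V, y x)).card : ℝ)
      ≤ (((powersetCard j P).filter (fun V => -1 < ∑ x ∈ V, y x)).card : ℝ) := by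
    have : ((powersetCard j Q).filter (fun V => -1 < ∑ x ∈ V, y x)).card
        ≤ ((powersetCard j P).filter (fun V => -1 < ∑ x ∈ V, y x)).card := by
      apply card_le_card
      intro V hV
      rw [mem_filter, mem_powersetCard] at hV ⊢
      exact ⟨⟨hV.1.1.trans hQP, hV.1.2⟩, hV.2⟩
    exact_mod_cast this
  suffices hmain : 21 / 200 * (Q.card.choose j : ℝ)
      ≤ (((powersetCard j Q).filter (fun V => -1 < ∑ x ∈ V, y x)).card : ℝ) by
    linarith
  -- the threshold
  obtain ⟨x0, hx0, hmin⟩ := exists_min_image Q y hQne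
  set β := -y x0 with hβ
  have hβQ : ∀ x ∈ Q, -β ≤ y x := by
    intro x hx
    rw [hβ, neg_neg]
    exact hmin x hx
  have hβP : ∀ z ∈ P \ Q, y z ≤ -β := by
    intro z hz
    rw [hβ, neg_neg]
    exact hQ x0 hx0 z hz
  rcases le_or_gt β 0 with hβ0 | hβ0
  · have h1 : (powersetCard j Q).filter (fun V => -1 < ∑ x ∈ V, y x) = powersetCard j Q := by
      apply filter_true_of_mem
      intro V hV
      rw [mem_powersetCard] at hV
      have : 0 ≤ ∑ x ∈ V, y x := sum_nonneg (fun x hx => by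
        have := hβQ x (hV.1 hx)
        linarith)
      linarith
    rw [h1, card_powersetCard]
    have : (0 : ℝ) ≤ (Q.card.choose j : ℝ) := Nat.cast_nonneg _
    linarith
  · have hsum : (r : ℝ) * β - 3 ≤ ∑ x ∈ Q, y x := by
      have h1 : ∑ x ∈ P \ Q, y x ≤ -(r * β) := by
        calc ∑ x ∈ P \ Q, y x ≤ ∑ x ∈ P \ Q, (-β) := sum_le_sum hβP
          _ = -(r * β) := by
            rw [sum_const, card_sdiff_of_subset hQP, nsmul_eq_mul, ← hM, ← hQc,
              Nat.add_sub_cancel_left]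
            ring
      have h2 := sum_sdiff (f := y) hQP
      linarith
    obtain ⟨q, hq⟩ : ∃ q, q = Q.card / j := ⟨_, rfl⟩
    have hq1 : j * q ≤ Q.card := by rw [hq]; exact Nat.mul_div_le _ _
    have hq2 : Q.card < j * (q + 1) := by rw [hq]; exact Nat.lt_mul_div_succ _ (by omega)
    have hq1r : (j : ℝ) * q ≤ Q.card := by exact_mod_cast hq1
    have hq2r : (Q.card : ℝ) + 1 ≤ j * (q + 1) := by exact_mod_cast hq2
    have hq0' : 0 < q := by
      rw [hq]
      apply Nat.div_pos _ (by omega)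
      have h3 : (j : ℝ) ≤ Q.card := by rw [hQr]; linarith
      exact_mod_cast h3
    have hq0 : (0 : ℝ) < q := by exact_mod_cast hq0'
    have hjr : 5 / 16 * (M : ℝ) ≤ j * r := by nlinarith
    -- `5/16 q ≤ r`
    have hrq : 5 / 16 * (q : ℝ) ≤ r := by
      have h3 : (j : ℝ) * (5 / 16 * q) ≤ j * r := by
        have : (j : ℝ) * q ≤ M := by rw [hQr] at hq1r; linarith
        linarith
      exact le_of_mul_le_mul_left h3 (by linarith)
    -- `j + 2 ≤ 11/16 q`
    have hjq : (j : ℝ) + 2 ≤ 11 / 16 * q := by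
      have h3 : (j : ℝ) * (j + 2) ≤ j * (11 / 16 * q) := by
        have h4 : 2 / 3 * (M : ℝ) - j ≤ j * q := by
          rw [hQr] at hq2r
          linarith
        nlinarith
      exact le_of_mul_le_mul_left h3 (by linarith)
    refine set_lower hq0' hq1 Q rfl y hβ0 (fun x hx => hy x (hQP hx)) hβQ ?_
    have h5 : β * (5 / 16 * (q : ℝ)) ≤ β * r := mul_le_mul_of_nonneg_left hrq hβ0.le
    have h6 : (Q.card : ℝ) - j * q ≤ j - 1 := by linarith
    nlinarith

end

end AK
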