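import Mathlib

/-!
# Lower bounds for `P(S > -t)` from the moments of a centred sum
-/

set_option autoImplicit false

namespace AK

open Finset

/-- the indicator of `-t < s` -/
noncomputable def ind (t s : ℝ) : ℝ := if -t < s then 1 else 0

theorem ind_nonneg (t s : ℝ) : 0 ≤ ind t s := by
  unfold ind
  split_ifs <;> norm_num

theorem ind_le_one (t s : ℝ) : ind t s ≤ 1 := by
  unfold ind
  split_ifs <;> norm_num

/-- Cantelli, pointwise -/
theorem ind_ge_two {t : ℝ} (ht : 0 < t) (c s : ℝ) (hc : 0 ≤ c) :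
    1 - ((c * t - s) / (t + c * t)) ^ 2 ≤ ind t s := by
  unfold ind
  have h0 : 0 < t + c * t := by positivity
  split_ifs with h
  · have := sq_nonneg ((c * t - s) / (t + c * t))
    linarith
  · push Not at h
    have h1 : 1 ≤ (c * t - s) / (t + c * t) := by
      rw [le_div_iff₀ h0]
      linarith
    nlinarith

/-- a quartic minorant of the indicator of the positive reals -/
theorem ind_ge_four {t : ℝ} (ht : 0 < t) (v : ℝ) :
    (2 * v + 3 * v ^ 2 - v ^ 4) / 5 ≤ ind t v := by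
  unfold ind
  split_ifs with h
  · rw [div_le_one (by norm_num)]
    nlinarith [sq_nonneg (v ^ 2 - 2), sq_nonneg (v - 1)]
  · push Not at h
    have hv : v ≤ 0 := by linarith
    have e : 2 * v + 3 * v ^ 2 - v ^ 4 = -((-v) * ((v + 1) ^ 2 * (2 - v))) := by ring
    have h1 : 0 ≤ (-v) * ((v + 1) ^ 2 * (2 - v)) := by
      apply mul_nonneg (by linarith)
      apply mul_nonneg (sq_nonneg _)
      linarith
    rw [e]
    apply div_nonpos_of_nonpos_of_nonneg (by linarith) (by norm_num)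

theorem ind_scale {t θ : ℝ} (hθ : 0 < θ) (s : ℝ) : ind (t / θ) (s / θ) = ind t s := by
  unfold ind
  have : -(t / θ) < s / θ ↔ -t < s := by
    rw [← neg_div, div_lt_div_iff_of_pos_right hθ]
  simp only [this]

/-- `E` is a mean value functional with mean zero and second and fourth moments `V`, `U` -/
structure Mean (E : (ℝ → ℝ) → ℝ) (V U : ℝ) : Prop where
  mono : ∀ F G : ℝ → ℝ, (∀ s, F s ≤ G s) → E F ≤ E G
  poly : ∀ c0 c1 c2 c4 : ℝ, E (fun s => c0 + (c1 * s + (c2 * s ^ 2 + c4 * s ^ 4)))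
    = c0 + (c2 * V + c4 * U)

/-- the small variance case -/
theorem Mean.cantelli {E : (ℝ → ℝ) → ℝ} {V U : ℝ} (hE : Mean E V U) {t c : ℝ} (ht : 0 < t)
    (hc : 0 < c) (hv : V ≤ c * t ^ 2) : 1 / (1 + c) ≤ E (fun s => ind t s) := by
  have h1 : E (fun s => 1 - ((c * t - s) / (t + c * t)) ^ 2) ≤ E (fun s => ind t s) :=
    hE.mono _ _ (fun s => ind_ge_two ht c s hc.le)
  refine le_trans ?_ h1
  have hT : 0 < t + c * t := by positivity
  have e : (fun s : ℝ => 1 - ((c * t - s) / (t + c * t)) ^ 2)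
      = (fun s => (1 - (c * t / (t + c * t)) ^ 2)
        + ((2 * (c * t) / (t + c * t) ^ 2) * s + ((-(1 / (t + c * t) ^ 2)) * s ^ 2
          + 0 * s ^ 4))) := by
    funext s
    field_simp
    ring
  rw [e, hE.poly]
  have e2 : 1 - (c * t / (t + c * t)) ^ 2 + (-(1 / (t + c * t) ^ 2) * V + 0 * U)
      = ((t + c * t) ^ 2 - (c * t) ^ 2 - V) / (t + c * t) ^ 2 := by
    field_simp
    ring
  rw [e2, div_le_div_iff₀ (by positivity) (by positivity)]
  have e3 : (t + c * t) ^ 2 = t ^ 2 * (1 + c) ^ 2 := by ring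
  rw [e3]
  have h5 : (1 + c) * V ≤ (1 + c) * (c * t ^ 2) := mul_le_mul_of_nonneg_left hv (by positivity)
  nlinarith

/-- the large variance case -/
theorem Mean.quartic {E : (ℝ → ℝ) → ℝ} {V U : ℝ} (hE : Mean E V U) {t κ : ℝ} (ht : 0 < t)
    (hκ : 0 < κ) (hV : 0 < V) (hU : U ≤ (3 + κ) * V ^ 2) :
    9 / (20 * (3 + κ)) ≤ E (fun s => ind t s) := by
  set K := 3 + κ with hK
  have hK0 : 0 < K := by linarith
  set θ := Real.sqrt (2 * K / 3 * V) with hθ
  have hpos' : 0 < 2 * K / 3 * V := by positivity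
  have hθ0 : 0 < θ := Real.sqrt_pos.2 hpos'
  have hθ2 : θ ^ 2 = 2 * K / 3 * V := Real.sq_sqrt hpos'.le
  have h1 : E (fun s => (2 * (s / θ) + 3 * (s / θ) ^ 2 - (s / θ) ^ 4) / 5)
      ≤ E (fun s => ind t s) := by
    apply hE.mono
    intro s
    rw [← ind_scale hθ0 (t := t)]
    exact ind_ge_four (by positivity) _
  refine le_trans ?_ h1
  have e : (fun s : ℝ => (2 * (s / θ) + 3 * (s / θ) ^ 2 - (s / θ) ^ 4) / 5)
      = (fun s => 0 + ((2 / (5 * θ)) * s + ((3 / (5 * θ ^ 2)) * s ^ 2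
        + (-(1 / (5 * θ ^ 4))) * s ^ 4))) := by
    funext s
    field_simp
    ring
  rw [e, hE.poly]
  have e4 : θ ^ 4 = (2 * K / 3 * V) ^ 2 := by
    rw [← hθ2]
    ring
  rw [hθ2, e4]
  have hA : 1 / (5 * (2 * K / 3 * V) ^ 2) * U
      ≤ 1 / (5 * (2 * K / 3 * V) ^ 2) * (K * V ^ 2) :=
    mul_le_mul_of_nonneg_left hU (by positivity)
  have e5 : 1 / (5 * (2 * K / 3 * V) ^ 2) * (K * V ^ 2) = 9 / (20 * K) := by
    field_simp
    ring
  have e6 : 3 / (5 * (2 * K / 3 * V)) * V = 9 / (10 * K) := by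
    field_simp
    ring
  rw [e6]
  have e7 : 9 / (20 * K) = 9 / (10 * K) - 9 / (20 * K) := by
    field_simp
    ring
  rw [e5] at hA
  linarith

/-- the two cases together -/
theorem Mean.lower {E : (ℝ → ℝ) → ℝ} {V U : ℝ} (hE : Mean E V U) {t B : ℝ} (ht : 0 < t)
    (hB : 5 / 16 * B ≤ t) (hB0 : 0 ≤ B) (hV : 0 ≤ V) (hU : U ≤ 3 * V ^ 2 + B ^ 2 * V) :
    21 / 200 ≤ E (fun s => ind t s) := by
  rcases le_or_gt V (8 * t ^ 2) with h | h
  · have := hE.cantelli ht (by norm_num : (0 : ℝ) < 8) h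
    linarith
  · have h0 : 0 < V := lt_trans (by positivity) h
    have h1 : (5 / 16 * B) ^ 2 ≤ t ^ 2 := pow_le_pow_left₀ (by positivity) hB 2
    have h2 : B ^ 2 ≤ 32 / 25 * V := by nlinarith
    have h3 : B ^ 2 * V ≤ 32 / 25 * V * V := mul_le_mul_of_nonneg_right h2 hV
    have := hE.quartic (κ := 32 / 25) ht (by norm_num) h0 (by nlinarith)
    linarith

end AK
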