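import Pool.Agent.Helper80.AK.Sums

/-!
# Reduction to few positive doses, and adding elements of dose zero
-/

set_option autoImplicit false

namespace AK

open Finset K3

section
variable {ι : Type*} [DecidableEq ι]

theorem reduce_step (k : ℕ) (S : Finset ι) (h : ι → ℝ) (h0 : ∀ i ∈ S, 0 ≤ h i)
    (hP : (k : ℝ) * ∑ i ∈ S, h i < ((S.filter (fun i => 0 < h i)).card : ℝ)) :
    ∃ g : ι → ℝ, (∀ i ∈ S, 0 ≤ g i) ∧ ∑ i ∈ S, g i ≤ ∑ i ∈ S, h i ∧
      (S.filter (fun i => 0 < g i)).card < (S.filter (fun i => 0 < h i)).card ∧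
      ∀ V, V ⊆ S → V.card ≤ k → 1 ≤ ∑ i ∈ V, h i → 1 ≤ ∑ i ∈ V, g i := by
  classical
  set P := S.filter (fun i => 0 < h i) with hPdef
  set T := ∑ i ∈ S, h i with hT
  have hT0 : 0 ≤ T := sum_nonneg h0
  have hPpos : (0 : ℝ) < P.card := lt_of_le_of_lt (by positivity) hP
  have hne : P.Nonempty := card_pos.1 (by exact_mod_cast hPpos)
  obtain ⟨z, hz, hmin⟩ := exists_min_image P h hne
  set m := h z with hm
  have hm0 : 0 < m := (mem_filter.1 hz).2
  have hTP : ∑ i ∈ P, h i = T := by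
    rw [hT, hPdef, sum_filter]
    apply sum_congr rfl
    intro i hi
    split_ifs with h1
    · rfl
    · exact le_antisymm (h0 i hi) (not_lt.1 h1)
  have hcm : (P.card : ℝ) * m ≤ T := by
    rw [← hTP]
    have := card_nsmul_le_sum P h m hmin
    simpa using this
  have hkm : (k : ℝ) * m < 1 := by
    by_contra hcon
    push Not at hcon
    have h1 : (k : ℝ) * T ≥ (k : ℝ) * (P.card * m) :=
      mul_le_mul_of_nonneg_left hcm (Nat.cast_nonneg k)
    nlinarith
  set D := 1 - (k : ℝ) * m with hD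
  have hD0 : 0 < D := by rw [hD]; linarith
  set g : ι → ℝ := fun i => if 0 < h i then (h i - m) / D else 0 with hg
  have hsum : ∀ V, V ⊆ S → ∑ i ∈ V, g i
      = (∑ i ∈ V, h i - ((V.filter (fun i => 0 < h i)).card : ℝ) * m) / D := by
    intro V hV
    have e1 : ∑ i ∈ V, g i = ∑ i ∈ V.filter (fun i => 0 < h i), (h i - m) / D := by
      rw [sum_filter]
    have e2 : ∑ i ∈ V.filter (fun i => 0 < h i), h i = ∑ i ∈ V, h i := by
      rw [sum_filter]
      apply sum_congr rfl
      intro i hi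
      split_ifs with h1
      · rfl
      · exact le_antisymm (h0 i (hV hi)) (not_lt.1 h1)
    rw [e1, ← sum_div, sum_sub_distrib, e2, sum_const, nsmul_eq_mul]
  refine ⟨g, ?_, ?_, ?_, ?_⟩
  · intro i hi
    simp only [hg]
    split_ifs with h1
    · apply div_nonneg _ hD0.le
      have := hmin i (mem_filter.2 ⟨hi, h1⟩)
      linarith
    · exact le_rfl
  · rw [hsum S (Subset.refl S), ← hPdef, ← hT, div_le_iff₀ hD0, hD]
    nlinarith
  · apply card_lt_card
    rw [ssubset_iff_of_subset]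
    · refine ⟨z, hz, ?_⟩
      rw [mem_filter, not_and]
      intro _
      simp only [hg]
      rw [if_pos hm0, ← hm, sub_self, zero_div]
      exact lt_irrefl _
    · intro i hi
      rw [mem_filter] at hi
      rw [hPdef, mem_filter]
      refine ⟨hi.1, ?_⟩
      by_contra h1
      simp only [hg] at hi
      rw [if_neg h1] at hi
      exact lt_irrefl _ hi.2
  · intro V hV hVk hl
    rw [hsum V hV, le_div_iff₀ hD0, one_mul, hD]
    have h1 : ((V.filter (fun i => 0 < h i)).card : ℝ) ≤ k := by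
      exact_mod_cast (card_filter_le _ _).trans hVk
    nlinarith

theorem reduce_all (k N : ℕ) (S : Finset ι) (m : ℕ) : ∀ h : ι → ℝ, (∀ i ∈ S, 0 ≤ h i) →
    (k : ℝ) * ∑ i ∈ S, h i < (N : ℝ) + 1 →
    (S.filter (fun i => 0 < h i)).card ≤ N + m →
    ∃ g : ι → ℝ, (∀ i ∈ S, 0 ≤ g i) ∧ ∑ i ∈ S, g i ≤ ∑ i ∈ S, h i ∧
      (S.filter (fun i => 0 < g i)).card ≤ N ∧ cnt 1 k h S ≤ cnt 1 k g S := by
  induction m with
  | zero =>
    intro h h0 _ hP
    exact ⟨h, h0, le_rfl, hP, le_rfl⟩
  | succ m ih =>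
    intro h h0 hs hP
    by_cases hle : (S.filter (fun i => 0 < h i)).card ≤ N
    · exact ⟨h, h0, le_rfl, hle, le_rfl⟩
    · have h1 : ((N : ℝ) + 1) ≤ ((S.filter (fun i => 0 < h i)).card : ℝ) := by
        have : N + 1 ≤ (S.filter (fun i => 0 < h i)).card := by omega
        exact_mod_cast this
      obtain ⟨g, g0, gs, gc, gl⟩ := reduce_step k S h h0 (by linarith)
      obtain ⟨g', g0', gs', gc', gl'⟩ := ih g g0
        (by
          have : (k : ℝ) * ∑ i ∈ S, g i ≤ (k : ℝ) * ∑ i ∈ S, h i :=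
            mul_le_mul_of_nonneg_left gs (Nat.cast_nonneg k)
          linarith) (by omega)
      refine ⟨g', g0', gs'.trans gs, gc', le_trans ?_ gl'⟩
      apply cnt_mono
      intro V hV hc hl
      exact gl V hV hc.le hl

/-- adding elements of dose zero -/
theorem add_zeros (g : ι → ℝ) (Q : Finset ι) (N k : ℕ) (a : ℝ)
    (ha : ∀ i, i < k → (cnt 1 i g Q : ℝ) ≤ a * (N.choose i : ℝ)) (Z : Finset ι) :
    Disjoint Q Z → (∀ i ∈ Z, g i = 0) → ∀ i, i ≤ k →
    (cnt 1 i g (Q ∪ Z) : ℝ) ≤ cnt 1 i g Q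
      + a * (((N + Z.card).choose i : ℝ) - (N.choose i : ℝ)) := by
  induction Z using Finset.induction_on with
  | empty =>
    intro _ _ i _
    simp
  | @insert z Z hz ih =>
    intro hd h0 i hi
    have hd' : Disjoint Q Z := hd.mono_right (subset_insert _ _)
    have h0' : ∀ i ∈ Z, g i = 0 := fun i hi => h0 i (mem_insert_of_mem hi)
    have hzQ : z ∉ Q := fun h => disjoint_left.1 hd h (mem_insert_self _ _)
    have hzU : z ∉ Q ∪ Z := by
      rw [mem_union, not_or]
      exact ⟨hzQ, hz⟩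
    have hU : Q ∪ insert z Z = insert z (Q ∪ Z) := union_insert _ _ _
    rw [hU, card_insert_of_notMem hz]
    cases i with
    | zero =>
      rw [cnt_zero_of_pos one_pos, cnt_zero_of_pos one_pos]
      simp
    | succ i =>
      rw [cnt_insert 1 i g hzU, h0 z (mem_insert_self _ _), sub_zero]
      have h1 := ih hd' h0' (i + 1) hi
      have h2 := ih hd' h0' i (by omega)
      have h3 := ha i (by omega)
      rw [← add_assoc N, Nat.choose_succ_succ' (N + Z.card) i]
      push_cast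
      nlinarith

end

end AK
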