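import Pool.Agent.Helper80.AK.Win
import Pool.Agent.Helper80.AK.Red
import Pool.Agent.Helper46.K3.Bridge

/-!
# The `1 / k`-distribution is optimal for `n` close to `k h`
-/

set_option autoImplicit false

namespace AK

open Finset K3

section
variable {ι : Type*} [DecidableEq ι]

/-- number of nonlethal `k`-sets -/
noncomputable def nl (k : ℕ) (g : ι → ℝ) (S : Finset ι) : ℕ :=
  ((powersetCard k S).filter (fun V => ∑ x ∈ V, g x < 1)).card

theorem cnt_add_nl (k : ℕ) (g : ι → ℝ) (S : Finset ι) :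
    cnt 1 k g S + nl k g S = S.card.choose k := by
  unfold cnt nl
  rw [← card_powersetCard k S,
    ← card_filter_add_card_filter_not (s := powersetCard k S) (fun V => (1 : ℝ) ≤ ∑ x ∈ V, g x)]
  congr 2
  apply filter_congr
  intro V _
  rw [not_le]

theorem nl_mono (k : ℕ) (g : ι → ℝ) {R S : Finset ι} (h : R ⊆ S) : nl k g R ≤ nl k g S := by
  unfold nl
  apply card_le_card
  intro V hV
  rw [mem_filter, mem_powersetCard] at hV ⊢
  exact ⟨⟨hV.1.1.trans h, hV.1.2⟩, hV.2⟩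

/-- inequality (2) -/
theorem bound_two (Q : Finset ι) (g : ι → ℝ) (h0 : ∀ i ∈ Q, 0 ≤ g i) (κ N : ℕ)
    (hN : Q.card = N) (hk : 2 * κ + 1 ≤ N)
    (hs : ((κ : ℝ) + 1) * ∑ x ∈ Q, g x < (N : ℝ) + 1) (hL : 0 < cnt 1 κ g Q) :
    (N - κ).choose (κ + 1) ≤ (N - κ) * nl (κ + 1) g Q := by
  classical
  unfold cnt at hL
  obtain ⟨W, hW⟩ := card_pos.1 hL
  rw [mem_filter, mem_powersetCard] at hW
  obtain ⟨⟨hWQ, hWc⟩, hWl⟩ := hW
  have hRc : (Q \ W).card = N - κ := by rw [card_sdiff_of_subset hWQ, hN, hWc]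
  obtain ⟨e, he, _⟩ := exists_sorted (N - κ) g (Q \ W) hRc
  have hsum : ∑ x ∈ Q \ W, g x = ∑ x ∈ Q, g x - ∑ x ∈ W, g x := by
    rw [← sum_sdiff hWQ]
    ring
  have hcast : ((N - κ : ℕ) : ℝ) = (N : ℝ) - κ := by
    rw [Nat.cast_sub (by omega)]
  have hw := windows (M := N - κ) (k := κ + 1) (by omega) (by omega) (fun x => g (e x))
    (by
      have h1 : ∑ x, g (e x) = ∑ x ∈ Q \ W, g x := by
        rw [← he, sum_map]
      rw [h1, hsum, hcast]
      push_cast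
      have hk0 : (0 : ℝ) ≤ (κ : ℝ) + 1 := by positivity
      have h2 : ((κ : ℝ) + 1) * 1 ≤ ((κ : ℝ) + 1) * ∑ x ∈ W, g x :=
        mul_le_mul_of_nonneg_left hWl hk0
      linarith)
  refine hw.trans (Nat.mul_le_mul_left _ ?_)
  refine le_trans (le_of_eq ?_) (nl_mono (κ + 1) g (sdiff_subset (s := Q) (t := W)))
  have h3 := cnt_add_nl (κ + 1) g (Q \ W)
  have h4 := cnt_add_nl (κ + 1) (fun x => g (e x)) (univ : Finset (Fin (N - κ)))
  have h5 : cnt 1 (κ + 1) g (Q \ W) = cnt 1 (κ + 1) (fun x => g (e x)) univ := by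
    rw [← he, cnt_map]
  rw [card_univ, Fintype.card_fin] at h4
  rw [hRc] at h3
  have h6 : nl (κ + 1) g (Q \ W) = nl (κ + 1) (fun x => g (e x)) univ := by omega
  rw [h6]
  rfl

theorem choose_mul' (N k : ℕ) (h : k ≤ N) :
    (N.choose (k + 1) : ℝ) * ((k : ℝ) + 1) = (N.choose k : ℝ) * ((N : ℝ) - k) := by
  have h1 := Nat.choose_succ_right_eq N k
  have h2 : ((N.choose (k + 1) * (k + 1) : ℕ) : ℝ) = ((N.choose k * (N - k) : ℕ) : ℝ) := by
    rw [h1]
  push_cast [Nat.cast_sub h] at h2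
  exact h2

/-- comparison of fractions -/
theorem frac_le (Q : Finset ι) (g : ι → ℝ) (h0 : ∀ i ∈ Q, 0 ≤ g i) (κ N : ℕ)
    (hN : Q.card = N) (hk : κ ≤ N) : ∀ d i, i + d = κ →
    (cnt 1 i g Q : ℝ) * (N.choose κ : ℝ) ≤ (cnt 1 κ g Q : ℝ) * (N.choose i : ℝ) := by
  intro d
  induction d with
  | zero =>
    intro i hi
    have : i = κ := by omega
    subst this
    exact le_rfl
  | succ d ih =>
    intro i hi
    have h1 := ih (i + 1) (by omega)
    have h2 := lym Q g h0 i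
    rw [hN] at h2
    have h3 := choose_mul' N i (by omega)
    have h4 : (0 : ℝ) < (N : ℝ) - i := by
      have : ((i + 1 : ℕ) : ℝ) ≤ N := by exact_mod_cast (by omega : i + 1 ≤ N)
      push_cast at this
      linarith
    have h5 : (0 : ℝ) ≤ (N.choose κ : ℝ) := Nat.cast_nonneg _
    have h6 : (0 : ℝ) ≤ (i : ℝ) + 1 := by positivity
    have h7 : (cnt 1 i g Q : ℝ) * (N.choose κ : ℝ) * ((N : ℝ) - i)
        ≤ (cnt 1 κ g Q : ℝ) * (N.choose i : ℝ) * ((N : ℝ) - i) := by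
      calc (cnt 1 i g Q : ℝ) * (N.choose κ : ℝ) * ((N : ℝ) - i)
          = ((cnt 1 i g Q : ℝ) * ((N : ℝ) - i)) * (N.choose κ : ℝ) := by ring
        _ ≤ (cnt 1 (i + 1) g Q * ((i : ℝ) + 1)) * (N.choose κ : ℝ) :=
            mul_le_mul_of_nonneg_right h2 h5
        _ = ((cnt 1 (i + 1) g Q : ℝ) * (N.choose κ : ℝ)) * ((i : ℝ) + 1) := by ring
        _ ≤ ((cnt 1 κ g Q : ℝ) * (N.choose (i + 1) : ℝ)) * ((i : ℝ) + 1) :=
            mul_le_mul_of_nonneg_right h1 h6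
        _ = (cnt 1 κ g Q : ℝ) * ((N.choose (i + 1) : ℝ) * ((i : ℝ) + 1)) := by ring
        _ = (cnt 1 κ g Q : ℝ) * (N.choose i : ℝ) * ((N : ℝ) - i) := by rw [h3]; ring
    exact le_of_mul_le_mul_right h7 h4

/-- comparison of binomial coefficients -/
theorem choose_lower (M k : ℕ) (hM : 0 < M) (hk : k ≤ M) : ∀ j : ℕ, (j : ℝ) * k ≤ M →
    ((M + j).choose k : ℝ) * (1 - (j : ℝ) * k / M) ≤ (M.choose k : ℝ) := by
  have hM0 : (0 : ℝ) < M := by exact_mod_cast hM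
  intro j
  induction j with
  | zero => intro _; simp
  | succ j ih =>
    intro hj
    push_cast at hj
    have hk0 : (0 : ℝ) ≤ k := Nat.cast_nonneg k
    have h1 := ih (by nlinarith)
    have h2 : ((M + j + 1).choose k : ℝ) * ((M + j + 1 : ℕ) - k : ℝ)
        = ((M + j).choose k : ℝ) * ((M + j + 1 : ℕ) : ℝ) := by
      have h3 := Nat.choose_mul_succ_eq (M + j) k
      have h4 : (((M + j).choose k * (M + j + 1) : ℕ) : ℝ)
          = (((M + j + 1).choose k * (M + j + 1 - k) : ℕ) : ℝ) := by rw [h3]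
      rw [Nat.cast_mul, Nat.cast_mul, Nat.cast_sub (by omega)] at h4
      exact h4.symm
    push_cast at h2 ⊢
    have hx : (0 : ℝ) < (M : ℝ) + j + 1 := by positivity
    have hj0 : (0 : ℝ) ≤ j := Nat.cast_nonneg j
    have h5 : ((M + j + 1).choose k : ℝ) * (1 - (k : ℝ) / M) ≤ ((M + j).choose k : ℝ) := by
      have h6 : (1 - (k : ℝ) / M) ≤ ((M : ℝ) + j + 1 - k) / ((M : ℝ) + j + 1) := by
        rw [le_div_iff₀ hx, sub_mul, one_mul, div_mul_eq_mul_div]
        have : (k : ℝ) ≤ (k : ℝ) * ((M : ℝ) + j + 1) / M := by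
          rw [le_div_iff₀ hM0]
          nlinarith
        linarith
      have h7 : ((M + j).choose k : ℝ)
          = ((M + j + 1).choose k : ℝ) * (((M : ℝ) + j + 1 - k) / ((M : ℝ) + j + 1)) := by
        rw [← mul_div_assoc, h2, mul_div_assoc, div_self hx.ne', mul_one]
      rw [h7]
      exact mul_le_mul_of_nonneg_left h6 (Nat.cast_nonneg _)
    have h8 : 0 ≤ 1 - (j : ℝ) * k / M := by
      rw [sub_nonneg, div_le_one hM0]
      nlinarith
    have h9 : 1 - ((j : ℝ) + 1) * k / M ≤ (1 - (j : ℝ) * k / M) * (1 - (k : ℝ) / M) := by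
      have : (0 : ℝ) ≤ ((j : ℝ) * k / M) * ((k : ℝ) / M) := by positivity
      have e : ((j : ℝ) + 1) * k / M = (j : ℝ) * k / M + (k : ℝ) / M := by ring
      rw [e]
      nlinarith
    have h10 : (0 : ℝ) ≤ ((M + j + 1).choose k : ℝ) := Nat.cast_nonneg _
    rw [show M + (j + 1) = M + j + 1 by ring]
    calc ((M + j + 1).choose k : ℝ) * (1 - ((j : ℝ) + 1) * k / M)
        ≤ ((M + j + 1).choose k : ℝ) * ((1 - (j : ℝ) * k / M) * (1 - (k : ℝ) / M)) :=
          mul_le_mul_of_nonneg_left h9 h10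
      _ = (((M + j + 1).choose k : ℝ) * (1 - (k : ℝ) / M)) * (1 - (j : ℝ) * k / M) := by ring
      _ ≤ ((M + j).choose k : ℝ) * (1 - (j : ℝ) * k / M) := mul_le_mul_of_nonneg_right h5 h8
      _ ≤ _ := h1

/-- the numbers -/
theorem numbers {κ N n : ℕ} (hn : N < n) (hC : 0 < N.choose (κ + 1))
    (hh : 3 * (κ + 1) * n.choose (κ + 1) ≤ (3 * (κ + 1) + 1) * N.choose (κ + 1)) :
    3 * (κ + 1) ^ 2 ≤ N - κ ∧ κ + 1 ≤ N ∧
      2 * (N.choose (κ + 1) : ℝ) ≤ 3 * ((N - κ).choose (κ + 1) : ℝ) := by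
  have hkN : κ + 1 ≤ N := by
    by_contra hcon
    rw [Nat.choose_eq_zero_of_lt (by omega)] at hC
    exact lt_irrefl _ hC
  have h1 : (N + 1).choose (κ + 1) ≤ n.choose (κ + 1) := Nat.choose_le_choose _ hn
  have h2 : (N + 1).choose (κ + 1) = N.choose κ + N.choose (κ + 1) := Nat.choose_succ_succ' N κ
  have h3 : 3 * (κ + 1) * N.choose κ ≤ N.choose (κ + 1) := by
    have h4 : 3 * (κ + 1) * (N.choose κ + N.choose (κ + 1))
        ≤ (3 * (κ + 1) + 1) * N.choose (κ + 1) :=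
      (Nat.mul_le_mul_left _ (h2 ▸ h1)).trans hh
    nlinarith
  have h5 := Nat.choose_succ_right_eq N κ
  have hCk : 0 < N.choose κ := Nat.choose_pos (by omega)
  have h6 : 3 * (κ + 1) ^ 2 ≤ N - κ := by
    have h7 : N.choose κ * (3 * (κ + 1) ^ 2) ≤ N.choose κ * (N - κ) := by
      calc N.choose κ * (3 * (κ + 1) ^ 2) = (3 * (κ + 1) * N.choose κ) * (κ + 1) := by ring
        _ ≤ N.choose (κ + 1) * (κ + 1) := Nat.mul_le_mul_right _ h3
        _ = N.choose κ * (N - κ) := h5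
    exact Nat.le_of_mul_le_mul_left h7 hCk
  refine ⟨h6, hkN, ?_⟩
  set M := N - κ with hM
  have hMN : N = M + κ := by omega
  have hM0 : 0 < M := by
    have : 0 < 3 * (κ + 1) ^ 2 := by positivity
    omega
  have hM6 : 3 * ((κ : ℝ) + 1) ^ 2 ≤ M := by exact_mod_cast h6
  have hMr : (0 : ℝ) < M := by exact_mod_cast hM0
  have hκ : (0 : ℝ) ≤ κ := Nat.cast_nonneg κ
  have hkM : κ + 1 ≤ M := by nlinarith
  have h8 := choose_lower M (κ + 1) hM0 hkM κ (by push_cast; nlinarith)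
  rw [← hMN] at h8
  push_cast at h8
  have h9 : 2 / 3 ≤ 1 - (κ : ℝ) * ((κ : ℝ) + 1) / M := by
    have : (κ : ℝ) * ((κ : ℝ) + 1) / M ≤ 1 / 3 := by
      rw [div_le_iff₀ hMr]
      nlinarith
    linarith
  have h10 : (0 : ℝ) ≤ (N.choose (κ + 1) : ℝ) := Nat.cast_nonneg _
  nlinarith

/-- the final computation with real numbers -/
theorem arith_final {k c e N M L C A B T : ℝ} (hk1 : 1 ≤ k) (hc : 0 < c) (hN0 : 0 < N)
    (hM1 : 1 ≤ M) (hNM : N + 1 = M + k) (hcm : C * k = c * M) (hN1 : e * N = C * k)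
    (hLC : L ≤ c) (hL0 : 0 ≤ L) (hC0 : 0 < C)
    (hb1 : L * (T - 1) / k - (e * T - C) ≤ B) (hT1 : T < (N + 1) / k)
    (hb4 : 2 / 3 * C ≤ N * B) (hAC : A - C ≤ C / (3 * k)) : L / c * (A - C) ≤ B := by
  have hk0 : 0 < k := by linarith
  have hM0 : 0 < M := by linarith
  have hcoef : L / k ≤ e := by
    rw [div_le_iff₀ hk0]
    have h5 : c * N ≤ e * k * N := by
      have h6 : e * k * N = c * (M * k) := by
        calc e * k * N = (e * N) * k := by ring
          _ = (C * k) * k := by rw [hN1]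
          _ = c * (M * k) := by rw [hcm]; ring
      rw [h6]
      apply mul_le_mul_of_nonneg_left _ hc.le
      have h7 : N = M + (k - 1) := by linarith
      rw [h7]
      have h8 : 0 ≤ (k - 1) * (M - 1) := mul_nonneg (by linarith) (by linarith)
      nlinarith
    have h8 : c ≤ e * k := le_of_mul_le_mul_right h5 hN0
    linarith
  have hb5 : L * (((N + 1) / k) - 1) / k - (e * ((N + 1) / k) - C) ≤ B := by
    have h6 : L * ((N + 1) / k - 1) / k - (e * ((N + 1) / k) - C)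
        - (L * (T - 1) / k - (e * T - C)) = (L / k - e) * ((N + 1) / k - T) := by
      ring
    have h7 : (L / k - e) * ((N + 1) / k - T) ≤ 0 :=
      mul_nonpos_of_nonpos_of_nonneg (by linarith) (by linarith)
    linarith
  have h9 : L * (((N + 1) / k) - 1) / k = L * M / (k * k) := by
    rw [hNM]
    field_simp
    ring
  have h10 : e * ((N + 1) / k) - C = C / N := by
    have h11 : e = C * k / N := by
      rw [eq_div_iff hN0.ne']
      exact hN1
    rw [h11]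
    field_simp
    ring
  rw [h9, h10] at hb5
  have h12 : L / c * (C / (3 * k)) = L * M / (k * k) / 3 := by
    have h13 : C = c * M / k := by
      rw [eq_div_iff hk0.ne']
      exact hcm
    rw [h13]
    field_simp
  have h14 : L / c * (A - C) ≤ L / c * (C / (3 * k)) :=
    mul_le_mul_of_nonneg_left hAC (by positivity)
  have h15 : 2 / 3 * (C / N) ≤ B := by
    rw [← mul_div_assoc, div_le_iff₀ hN0]
    linarith
  have h16 : 0 ≤ C / N := by positivity
  linarith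

/-- the main inequality on the set `Q` of size `N` -/
theorem key {κ N n : ℕ} (hn : N < n)
    (hh : 3 * (κ + 1) * n.choose (κ + 1) ≤ (3 * (κ + 1) + 1) * N.choose (κ + 1))
    (hC : 0 < N.choose (κ + 1))
    (Q : Finset ι) (g : ι → ℝ) (h0 : ∀ i ∈ Q, 0 ≤ g i) (hN : Q.card = N)
    (hs : ((κ : ℝ) + 1) * ∑ x ∈ Q, g x < (N : ℝ) + 1) :
    (cnt 1 κ g Q : ℝ) / (N.choose κ : ℝ) * ((n.choose (κ + 1) : ℝ) - (N.choose (κ + 1) : ℝ))
      ≤ nl (κ + 1) g Q := by
  obtain ⟨hM3, hkN, hlow⟩ := numbers hn hC hh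
  have hCk : (0 : ℝ) < (N.choose κ : ℝ) := by exact_mod_cast Nat.choose_pos (by omega)
  have hk0 : (0 : ℝ) < (κ : ℝ) + 1 := by positivity
  have hκ0 : (0 : ℝ) ≤ κ := Nat.cast_nonneg κ
  rcases Nat.eq_zero_or_pos (cnt 1 κ g Q) with hz | hpos
  · rw [hz, Nat.cast_zero, zero_div, zero_mul]
    exact Nat.cast_nonneg _
  have hMcast : ((N - κ : ℕ) : ℝ) = (N : ℝ) - κ := by
    rw [Nat.cast_sub (by omega)]
  have hM3' : 3 * ((κ : ℝ) + 1) ^ 2 ≤ (N : ℝ) - κ := by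
    rw [← hMcast]
    exact_mod_cast hM3
  have hM1 : (1 : ℝ) ≤ (N : ℝ) - κ := by nlinarith
  have hN0 : (0 : ℝ) < N := by linarith
  have h2k : 2 * κ + 1 ≤ N := by
    have h3 : κ + 1 ≤ 3 * (κ + 1) ^ 2 := by nlinarith
    omega
  have hb2 := bound_two Q g h0 κ N hN h2k hs hpos
  have hb2' : ((N - κ).choose (κ + 1) : ℝ) ≤ ((N : ℝ) - κ) * (nl (κ + 1) g Q : ℝ) := by
    rw [← hMcast]
    exact_mod_cast hb2
  have hB0 : (0 : ℝ) ≤ (nl (κ + 1) g Q : ℝ) := Nat.cast_nonneg _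
  have hb4 : 2 / 3 * (N.choose (κ + 1) : ℝ) ≤ N * (nl (κ + 1) g Q : ℝ) := by nlinarith
  have hb1 := bound_one Q g h0 κ N hN hkN
  have hB : (N.choose (κ + 1) : ℝ) - cnt 1 (κ + 1) g Q = (nl (κ + 1) g Q : ℝ) := by
    have := cnt_add_nl (κ + 1) g Q
    rw [hN] at this
    have h2 : ((cnt 1 (κ + 1) g Q : ℝ) + nl (κ + 1) g Q) = (N.choose (κ + 1) : ℝ) := by
      exact_mod_cast this
    linarith
  rw [hB] at hb1
  have hN1 : ((N - 1).choose κ : ℝ) * N = (N.choose (κ + 1) : ℝ) * ((κ : ℝ) + 1) := by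
    have h2 := Nat.add_one_mul_choose_eq (N - 1) κ
    rw [show N - 1 + 1 = N by omega] at h2
    have h3 : ((N * (N - 1).choose κ : ℕ) : ℝ) = ((N.choose (κ + 1) * (κ + 1) : ℕ) : ℝ) := by
      rw [h2]
    push_cast at h3
    rw [mul_comm]
    exact h3
  have hLC : (cnt 1 κ g Q : ℝ) ≤ (N.choose κ : ℝ) := by
    have := cnt_le_choose 1 κ g Q
    rw [hN] at this
    exact_mod_cast this
  have hT1 : ∑ x ∈ Q, g x < ((N : ℝ) + 1) / ((κ : ℝ) + 1) := by
    rw [lt_div_iff₀ hk0, mul_comm]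
    exact hs
  have hC0 : (0 : ℝ) < (N.choose (κ + 1) : ℝ) := by exact_mod_cast hC
  have hAC : (n.choose (κ + 1) : ℝ) - (N.choose (κ + 1) : ℝ)
      ≤ (N.choose (κ + 1) : ℝ) / (3 * ((κ : ℝ) + 1)) := by
    rw [le_div_iff₀ (by positivity)]
    have h1 : 3 * ((κ : ℝ) + 1) * (n.choose (κ + 1) : ℝ)
        ≤ (3 * ((κ : ℝ) + 1) + 1) * (N.choose (κ + 1) : ℝ) := by exact_mod_cast hh
    linarith
  exact arith_final (k := (κ : ℝ) + 1) (by linarith) hCk hN0 hM1 (by ring)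
    (choose_mul' N κ (by omega)) hN1 hLC (Nat.cast_nonneg _) hC0 hb1 hT1 hb4 hAC

theorem main_set {κ N n : ℕ} (hn : N < n)
    (hh : 3 * (κ + 1) * n.choose (κ + 1) ≤ (3 * (κ + 1) + 1) * N.choose (κ + 1))
    (S : Finset ι) (hS : S.card = n) (h : ι → ℝ) (h0 : ∀ i ∈ S, 0 ≤ h i)
    (hs : ((κ : ℝ) + 1) * ∑ x ∈ S, h x < (N : ℝ) + 1) :
    cnt 1 (κ + 1) h S ≤ N.choose (κ + 1) := by
  classical
  rcases Nat.eq_zero_or_pos (N.choose (κ + 1)) with hz | hC
  · rw [hz, mul_zero] at hh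
    have h1 : n.choose (κ + 1) = 0 := by
      rcases Nat.eq_zero_or_pos (n.choose (κ + 1)) with h2 | h2
      · exact h2
      · have : 0 < 3 * (κ + 1) * n.choose (κ + 1) := by positivity
        omega
    have h2 := cnt_le_choose 1 (κ + 1) h S
    rw [hS, h1] at h2
    omega
  obtain ⟨g, g0, gs, gc, gl⟩ := reduce_all (κ + 1) N S n h h0 (by push_cast; exact hs)
    ((card_filter_le _ _).trans (by omega))
  refine gl.trans ?_
  obtain ⟨Q, hPQ, hQS, hQc⟩ := exists_subsuperset_card_eq (filter_subset (fun i => 0 < g i) S) gc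
    (by rw [hS]; exact hn.le)
  have hgz : ∀ i ∈ S \ Q, g i = 0 := by
    intro i hi
    rw [mem_sdiff] at hi
    by_contra hne
    apply hi.2
    apply hPQ
    rw [mem_filter]
    exact ⟨hi.1, lt_of_le_of_ne (g0 i hi.1) (Ne.symm hne)⟩
  have hsumQ : ∑ x ∈ Q, g x = ∑ x ∈ S, g x := by
    rw [← sum_sdiff hQS, sum_eq_zero hgz, zero_add]
  have hk := key hn hh hC Q g (fun i hi => g0 i (hQS hi)) hQc
    (by
      rw [hsumQ]
      have : ((κ : ℝ) + 1) * ∑ i ∈ S, g i ≤ ((κ : ℝ) + 1) * ∑ i ∈ S, h i :=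
        mul_le_mul_of_nonneg_left gs (by positivity)
      linarith)
  obtain ⟨_, hkN, _⟩ := numbers hn hC hh
  have hCk : (0 : ℝ) < (N.choose κ : ℝ) := by exact_mod_cast Nat.choose_pos (by omega)
  have hz := add_zeros g Q N (κ + 1) ((cnt 1 κ g Q : ℝ) / (N.choose κ : ℝ))
    (by
      intro i hi
      rw [div_mul_eq_mul_div, le_div_iff₀ hCk]
      exact frac_le Q g (fun i hi => g0 i (hQS hi)) κ N hQc (by omega) (κ - i) i (by omega))
    (S \ Q) disjoint_sdiff hgz (κ + 1) le_rfl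
  rw [union_sdiff_of_subset hQS, card_sdiff_of_subset hQS, hS, hQc,
    show N + (n - N) = n by omega] at hz
  have hn1 := cnt_add_nl (κ + 1) g Q
  rw [hQc] at hn1
  have hn2 : (cnt 1 (κ + 1) g Q : ℝ) + nl (κ + 1) g Q = (N.choose (κ + 1) : ℝ) := by
    exact_mod_cast hn1
  have : (cnt 1 (κ + 1) g S : ℝ) ≤ (N.choose (κ + 1) : ℝ) := by linarith
  exact_mod_cast this

end

/-- the `1 / k`-distribution -/
theorem dist_k {n m k : ℕ} (hk : 0 < k) (hm : m ≤ n) :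
    m.choose k ≤ cnt 1 k (fun i : Fin n => if i.val < m then (1 : ℝ) / (k : ℝ) else 0) univ := by
  unfold cnt
  rw [← card_lt_filter' hm, ← card_powersetCard]
  apply card_le_card
  intro V hV
  rw [mem_powersetCard] at hV
  rw [mem_filter, mem_powersetCard]
  refine ⟨⟨subset_univ _, hV.2⟩, ?_⟩
  rw [card_lt_filter' hm]
  apply lethal_of_card hk
  rw [filter_true_of_mem, hV.2]
  intro i hi
  exact (mem_filter.1 (hV.1 hi)).2

/-- Theorem R -/
theorem optimal (k n : ℕ) (hk : 1 ≤ k) (h : ℝ) (hh : 0 ≤ h)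
    (hn : 3 * k * n.choose k ≤ (3 * k + 1) * (⌊h * (k : ℝ)⌋₊).choose k)
    (x : Fin n → ℝ) (hx : ∀ i, 0 ≤ x i) (hsum : ∑ i, x i = h) :
    Set.ncard {V : Finset (Fin n) | V.card = k ∧ (1 : ℝ) ≤ ∑ i ∈ V, x i} ≤
      Set.ncard {V : Finset (Fin n) | V.card = k ∧ (1 : ℝ) ≤ ∑ i ∈ V,
        (if i.val < min n ⌊h * (k : ℝ)⌋₊ then (1 : ℝ) / (k : ℝ) else 0)} := by
  rw [ncard_eq_cnt', ncard_eq_cnt']
  refine le_trans ?_ (dist_k hk (min_le_left _ _))
  rcases Nat.lt_or_ge ⌊h * (k : ℝ)⌋₊ n with hlt | hge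
  · rw [min_eq_right hlt.le]
    obtain ⟨κ, rfl⟩ : ∃ κ, k = κ + 1 := ⟨k - 1, by omega⟩
    apply main_set hlt hn univ (by rw [card_univ, Fintype.card_fin]) x (fun i _ => hx i)
    rw [hsum]
    have h1 := Nat.lt_floor_add_one (h * ((κ + 1 : ℕ) : ℝ))
    push_cast at h1 ⊢
    linarith
  · rw [min_eq_left hge]
    have := cnt_le_choose 1 k x univ
    rwa [card_univ, Fintype.card_fin] at this

/-- an explicit range -/
theorem choose_of_range {k n N : ℕ} (hk : 1 ≤ k) (h : 4 * k ^ 2 * n ≤ (4 * k ^ 2 + 1) * N) :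
    3 * k * n.choose k ≤ (3 * k + 1) * N.choose k := by
  rcases Nat.lt_or_ge N n with hlt | hge
  · obtain ⟨j, rfl⟩ : ∃ j, n = N + j := ⟨n - N, by omega⟩
    have h1 : 4 * k ^ 2 * j ≤ N := by nlinarith
    have hj : 1 ≤ j := by omega
    have hk1 : 1 ≤ k ^ 2 := Nat.one_le_pow _ _ hk
    have hkk : k ≤ k ^ 2 := by nlinarith
    have hkN : 4 * k ^ 2 ≤ N := by nlinarith
    have hN0 : 0 < N := by omega
    have hkN' : k ≤ N := by omega
    have hkr : (1 : ℝ) ≤ k := by exact_mod_cast hk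
    have hN0r : (0 : ℝ) < N := by exact_mod_cast hN0
    have h2 : 4 * (k : ℝ) ^ 2 * j ≤ N := by exact_mod_cast h1
    have hj0 : (0 : ℝ) ≤ j := Nat.cast_nonneg j
    have h3 : (j : ℝ) * k ≤ N := by nlinarith
    have h4 := choose_lower N k hN0 hkN' j h3
    have h5 : 1 - 1 / (4 * (k : ℝ)) ≤ 1 - (j : ℝ) * k / N := by
      have : (j : ℝ) * k / N ≤ 1 / (4 * (k : ℝ)) := by
        rw [div_le_div_iff₀ hN0r (by positivity)]
        nlinarith
      linarith
    have h6 : (0 : ℝ) ≤ ((N + j).choose k : ℝ) := Nat.cast_nonneg _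
    have h7 : ((N + j).choose k : ℝ) * (1 - 1 / (4 * (k : ℝ))) ≤ (N.choose k : ℝ) :=
      (mul_le_mul_of_nonneg_left h5 h6).trans h4
    have h8 : 3 * (k : ℝ) * ((N + j).choose k : ℝ) ≤ (3 * (k : ℝ) + 1) * (N.choose k : ℝ) := by
      have h9 : 3 * (k : ℝ) ≤ (3 * (k : ℝ) + 1) * (1 - 1 / (4 * (k : ℝ))) := by
        rw [mul_sub, mul_one, mul_one_div, le_sub_iff_add_le, ← le_sub_iff_add_le',
          div_le_iff₀ (by positivity)]
        nlinarith
      calc 3 * (k : ℝ) * ((N + j).choose k : ℝ)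
          ≤ (3 * (k : ℝ) + 1) * (1 - 1 / (4 * (k : ℝ))) * ((N + j).choose k : ℝ) :=
            mul_le_mul_of_nonneg_right h9 h6
        _ = (3 * (k : ℝ) + 1) * (((N + j).choose k : ℝ) * (1 - 1 / (4 * (k : ℝ)))) := by ring
        _ ≤ (3 * (k : ℝ) + 1) * (N.choose k : ℝ) :=
            mul_le_mul_of_nonneg_left h7 (by positivity)
    exact_mod_cast h8
  · have h1 : n.choose k ≤ N.choose k := Nat.choose_le_choose _ hge
    nlinarith

end AK
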