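import Pool.Agent.Helper80.AK.Block

/-!
# The `1 / k`-distribution is optimal for `n ≤ (1 + 1 / (51 k)) ⌊k h⌋`
-/

set_option autoImplicit false

namespace AK

open Finset K3

section
variable {ι : Type*} [DecidableEq ι]

/-- the crossing argument in terms of lethal sets -/
theorem cross_cnt {κ N : ℕ} (hN1 : 51 * (κ + 1) ≤ N + 1) (hN2 : 3 * (κ + 1) ^ 2 ≤ N) (Q : Finset ι) (g : ι → ℝ)
    (h0 : ∀ i ∈ Q, 0 ≤ g i) (hN : Q.card = N)
    (hs : ((κ : ℝ) + 1) * ∑ x ∈ Q, g x < (N : ℝ) + 1) :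
    (cnt 1 κ g Q : ℝ) / (N.choose κ : ℝ)
      ≤ 43 * ((nl (κ + 1) g Q : ℝ) / (N.choose (κ + 1) : ℝ))
        + ((κ : ℝ) + 1) * (2 / ((N : ℝ) - (κ + 1))) := by
  have hk0 : (0 : ℝ) < (κ : ℝ) + 1 := by positivity
  have hkN : κ + 1 ≤ N := by omega
  have hkk : 5 * (κ + 1) ^ 2 ≤ 2 * (N - (κ + 1)) := by
    rcases Nat.eq_zero_or_pos κ with rfl | hκ
    · omega
    · have h1 : 2 * (κ + 1) ≤ (κ + 1) ^ 2 := by nlinarith
      omega
  set y : ι → ℝ := fun x => 1 - ((κ : ℝ) + 1) * g x with hy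
  have hy1 : ∀ x ∈ Q, y x ≤ 1 := by
    intro x hx
    have : 0 ≤ ((κ : ℝ) + 1) * g x := mul_nonneg hk0.le (h0 x hx)
    simp only [hy]
    linarith
  have hys : ∀ V : Finset ι, ∑ x ∈ V, y x = V.card - ((κ : ℝ) + 1) * ∑ x ∈ V, g x := by
    intro V
    simp only [hy]
    rw [sum_sub_distrib, sum_const, nsmul_eq_mul, mul_one, mul_sum]
  have hc := crossing y Q hy1 (κ + 1) (N - (κ + 1)) (by omega) hkk (by omega) κ Q 0 (Subset.refl Q)
    le_rfl (by omega) one_pos (by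
      rw [zero_add, hys, hN]
      linarith)
  have e1 := sv_eq y κ Q (fun s => if (0 : ℝ) + s ≤ -1 then (1 : ℝ) else 0) (by omega)
  have e2 := sv_eq y (κ + 1) Q (fun s => if (0 : ℝ) < 0 + s then (1 : ℝ) else 0) (by omega)
  rw [hN] at e1 e2
  have f1 : ∑ V ∈ powersetCard κ Q, (if (0 : ℝ) + ∑ x ∈ V, y x ≤ -1 then (1 : ℝ) else 0)
      = cnt 1 κ g Q := by
    rw [cnt_eq_sum]
    apply sum_congr rfl
    intro V hV
    rw [mem_powersetCard] at hV
    unfold le1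
    have : (0 : ℝ) + ∑ x ∈ V, y x ≤ -1 ↔ 1 ≤ ∑ x ∈ V, g x := by
      rw [hys, hV.2]
      constructor
      · intro h
        nlinarith
      · intro h
        nlinarith
    simp only [this]
  have f2 : ∑ V ∈ powersetCard (κ + 1) Q, (if (0 : ℝ) < 0 + ∑ x ∈ V, y x then (1 : ℝ) else 0)
      = nl (κ + 1) g Q := by
    unfold nl
    rw [card_filter]
    push_cast
    apply sum_congr rfl
    intro V hV
    rw [mem_powersetCard] at hV
    have : (0 : ℝ) < 0 + ∑ x ∈ V, y x ↔ ∑ x ∈ V, g x < 1 := by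
      rw [hys, hV.2]
      push_cast
      constructor
      · intro h
        by_contra hcon
        push Not at hcon
        nlinarith
      · intro h
        nlinarith
    simp only [this]
  have hC1 : (0 : ℝ) < (N.choose κ : ℝ) := by exact_mod_cast Nat.choose_pos (by omega)
  have hC2 : (0 : ℝ) < (N.choose (κ + 1) : ℝ) := by exact_mod_cast Nat.choose_pos hkN
  have g1 : sv y κ Q (fun s => if (0 : ℝ) + s ≤ -1 then (1 : ℝ) else 0)
      = (cnt 1 κ g Q : ℝ) / (N.choose κ : ℝ) := by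
    rw [eq_div_iff hC1.ne', e1, ← f1]
  have g2 : sv y (κ + 1) Q (fun s => if (0 : ℝ) < 0 + s then (1 : ℝ) else 0)
      = (nl (κ + 1) g Q : ℝ) / (N.choose (κ + 1) : ℝ) := by
    rw [eq_div_iff hC2.ne', e2, ← f2]
  rw [g1, g2, add_zero] at hc
  have hcast : ((N - (κ + 1) : ℕ) : ℝ) = (N : ℝ) - (κ + 1) := by
    rw [Nat.cast_sub hkN]
    push_cast
    ring
  rw [hcast] at hc
  exact hc

theorem key_sharp {κ N : ℕ} (hN1 : 51 * (κ + 1) ≤ N + 1) (hN2 : 3 * (κ + 1) ^ 2 ≤ N) (Q : Finset ι) (g : ι → ℝ)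
    (h0 : ∀ i ∈ Q, 0 ≤ g i) (hN : Q.card = N)
    (hs : ((κ : ℝ) + 1) * ∑ x ∈ Q, g x < (N : ℝ) + 1) :
    (cnt 1 κ g Q : ℝ) / (N.choose κ : ℝ) * (N.choose (κ + 1) : ℝ)
      ≤ 50 * nl (κ + 1) g Q := by
  have hk0 : (0 : ℝ) < (κ : ℝ) + 1 := by positivity
  have hkN : κ + 1 ≤ N := by omega
  have hC1 : (0 : ℝ) < (N.choose κ : ℝ) := by exact_mod_cast Nat.choose_pos (by omega)
  have hC2 : (0 : ℝ) < (N.choose (κ + 1) : ℝ) := by exact_mod_cast Nat.choose_pos hkN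
  have hN2r : 3 * ((κ : ℝ) + 1) ^ 2 ≤ N := by exact_mod_cast hN2
  have hκ0 : (0 : ℝ) ≤ κ := Nat.cast_nonneg κ
  have hN0 : (0 : ℝ) < N := by nlinarith
  have hkNr : 50 * ((κ : ℝ) + 1) ≤ N := by
    have : 50 * (κ + 1) ≤ N := by omega
    exact_mod_cast this
  rcases Nat.eq_zero_or_pos (cnt 1 κ g Q) with hz | hpos
  · rw [hz, Nat.cast_zero, zero_div, zero_mul]
    positivity
  set a := (cnt 1 κ g Q : ℝ) / (N.choose κ : ℝ) with ha
  have ha0 : 0 ≤ a := by positivity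
  set C := (N.choose (κ + 1) : ℝ) with hC
  set k := (κ : ℝ) + 1 with hk
  rcases le_or_gt (73 / 5 * k) (a * N) with hbig | hsmall
  · have hc := cross_cnt hN1 hN2 Q g h0 hN hs
    rw [← ha, ← hk, ← hC] at hc
    have h1 : k * (2 / ((N : ℝ) - k)) ≤ 7 / 50 * a := by
      have h3 : 49 / 50 * (N : ℝ) ≤ N - k := by linarith
      have h4 : a * (49 / 50 * (N : ℝ)) ≤ a * (N - k) := mul_le_mul_of_nonneg_left h3 ha0
      rw [mul_div_assoc', div_le_iff₀ (by linarith)]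
      linarith
    have h2 : 43 / 50 * a ≤ 43 * ((nl (κ + 1) g Q : ℝ) / C) := by linarith
    have h3 : 43 / 50 * a * C ≤ 43 * ((nl (κ + 1) g Q : ℝ) / C) * C :=
      mul_le_mul_of_nonneg_right h2 hC2.le
    have h4 : 43 * ((nl (κ + 1) g Q : ℝ) / C) * C = 43 * nl (κ + 1) g Q := by
      field_simp
    have h5 : (0 : ℝ) ≤ nl (κ + 1) g Q := Nat.cast_nonneg _
    rw [h4] at h3
    linarith
  · have h2k : 2 * κ + 1 ≤ N := by omega
    have hb := bound_blocks Q g κ N hN h2k hs hpos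
    set q := (N - κ) / (κ + 1) with hq
    have hq1 : q * (κ + 1) ≤ N - κ := Nat.div_mul_le_self _ _
    have hq2 : N - κ < (κ + 1) * (q + 1) := Nat.lt_mul_div_succ _ (by omega)
    have hq3 : N ≤ q * (κ + 1) + 2 * κ := by
      have : (κ + 1) * (q + 1) = q * (κ + 1) + (κ + 1) := by ring
      omega
    obtain ⟨j, hj⟩ : ∃ j, N = q * (κ + 1) + j := ⟨N - q * (κ + 1), by omega⟩
    have hj2 : j ≤ 2 * κ := by omega
    have hM0 : 0 < q * (κ + 1) := by omega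
    have hkM : κ + 1 ≤ q * (κ + 1) := by omega
    have hjr : (j : ℝ) ≤ 2 * k - 2 := by
      have : (j : ℝ) ≤ 2 * κ := by exact_mod_cast hj2
      rw [hk]
      linarith
    have hNr : (N : ℝ) = q * k + j := by
      rw [hk]
      exact_mod_cast hj
    have hj0 : (0 : ℝ) ≤ j := Nat.cast_nonneg j
    have hk1 : 1 ≤ k := by rw [hk]; linarith
    have hMr : 250 * (j : ℝ) * k ≤ 177 * (q * k) := by
      have h1 : (j : ℝ) * (250 * k + 177) ≤ (2 * k - 2) * (250 * k + 177) :=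
        mul_le_mul_of_nonneg_right hjr (by linarith)
      nlinarith
    have hMpos : (0 : ℝ) < q * k := by linarith
    have hcast : ((q * (κ + 1) : ℕ) : ℝ) = q * k := by
      push_cast
      rw [hk]
    have hcast2 : ((κ + 1 : ℕ) : ℝ) = k := by
      push_cast
      rw [hk]
    have hlow := choose_lower (q * (κ + 1)) (κ + 1) hM0 hkM j (by
      rw [hcast, hcast2]
      nlinarith)
    rw [← hj, ← hC, hcast, hcast2] at hlow
    have h1 : 73 / 250 ≤ 1 - (j : ℝ) * k / (q * k) := by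
      have : (j : ℝ) * k / (q * k) ≤ 177 / 250 := by
        rw [div_le_div_iff₀ hMpos (by norm_num)]
        linarith
      linarith
    have h2 : C * (73 / 250) ≤ C * (1 - (j : ℝ) * k / (q * k)) :=
      mul_le_mul_of_nonneg_left h1 hC2.le
    have hb' : ((q * (κ + 1)).choose (κ + 1) : ℝ) ≤ q * nl (κ + 1) g Q := by exact_mod_cast hb
    have h3 : C * (73 / 250) ≤ q * nl (κ + 1) g Q := by linarith
    -- multiply by `k`
    have hnl : (0 : ℝ) ≤ nl (κ + 1) g Q := Nat.cast_nonneg _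
    have h4 : C * (73 / 250) * k ≤ N * nl (κ + 1) g Q := by
      calc C * (73 / 250) * k ≤ (q * nl (κ + 1) g Q) * k := mul_le_mul_of_nonneg_right h3 hk0.le
        _ = (q * k) * nl (κ + 1) g Q := by ring
        _ ≤ N * nl (κ + 1) g Q := by
            apply mul_le_mul_of_nonneg_right _ hnl
            linarith
    have h5 : a * C * N ≤ 50 * nl (κ + 1) g Q * N := by
      calc a * C * N = C * (a * N) := by ring
        _ ≤ C * (73 / 5 * k) := mul_le_mul_of_nonneg_left hsmall.le hC2.le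
        _ = (C * (73 / 250) * k) * 50 := by ring
        _ ≤ (N * nl (κ + 1) g Q) * 50 := mul_le_mul_of_nonneg_right h4 (by norm_num)
        _ = 50 * nl (κ + 1) g Q * N := by ring
    exact le_of_mul_le_mul_right h5 hN0

/-- from the inequality on few elements to all elements -/
theorem main_of_key {κ N n : ℕ} (hn : N < n) (hkN : κ + 1 ≤ N)
    (hkey : ∀ (Q : Finset ι) (g : ι → ℝ), (∀ i ∈ Q, 0 ≤ g i) → Q.card = N →
      ((κ : ℝ) + 1) * ∑ x ∈ Q, g x < (N : ℝ) + 1 →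
      (cnt 1 κ g Q : ℝ) / (N.choose κ : ℝ) * ((n.choose (κ + 1) : ℝ) - (N.choose (κ + 1) : ℝ))
      ≤ nl (κ + 1) g Q)
    (S : Finset ι) (hS : S.card = n) (h : ι → ℝ) (h0 : ∀ i ∈ S, 0 ≤ h i)
    (hs : ((κ : ℝ) + 1) * ∑ x ∈ S, h x < (N : ℝ) + 1) :
    cnt 1 (κ + 1) h S ≤ N.choose (κ + 1) := by
  classical
  obtain ⟨g, g0, gs, gc, gl⟩ := reduce_all (κ + 1) N S n h h0 (by push_cast; exact hs)
    ((card_filter_le _ _).trans (by omega))
  refine gl.trans ?_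
  obtain ⟨Q, hPQ, hQS, hQc⟩ := exists_subsuperset_card_eq (filter_subset (fun i => 0 < g i) S) gc
    (by rw [hS]; exact hn.le)
  have hgz : ∀ i ∈ S \ Q, g i = 0 := by
    intro i hi
    rw [mem_sdiff] at hi
    by_contra hne
    apply hi.2
    apply hPQ
    rw [mem_filter]
    exact ⟨hi.1, lt_of_le_of_ne (g0 i hi.1) (Ne.symm hne)⟩
  have hsumQ : ∑ x ∈ Q, g x = ∑ x ∈ S, g x := by
    rw [← sum_sdiff hQS, sum_eq_zero hgz, zero_add]
  have hk := hkey Q g (fun i hi => g0 i (hQS hi)) hQc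
    (by
      rw [hsumQ]
      have : ((κ : ℝ) + 1) * ∑ i ∈ S, g i ≤ ((κ : ℝ) + 1) * ∑ i ∈ S, h i :=
        mul_le_mul_of_nonneg_left gs (by positivity)
      linarith)
  have hCk : (0 : ℝ) < (N.choose κ : ℝ) := by exact_mod_cast Nat.choose_pos (by omega)
  have hz := add_zeros g Q N (κ + 1) ((cnt 1 κ g Q : ℝ) / (N.choose κ : ℝ))
    (by
      intro i hi
      rw [div_mul_eq_mul_div, le_div_iff₀ hCk]
      exact frac_le Q g (fun i hi => g0 i (hQS hi)) κ N hQc (by omega) (κ - i) i (by omega))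
    (S \ Q) disjoint_sdiff hgz (κ + 1) le_rfl
  rw [union_sdiff_of_subset hQS, card_sdiff_of_subset hQS, hS, hQc,
    show N + (n - N) = n by omega] at hz
  have hn1 := cnt_add_nl (κ + 1) g Q
  rw [hQc] at hn1
  have hn2 : (cnt 1 (κ + 1) g Q : ℝ) + nl (κ + 1) g Q = (N.choose (κ + 1) : ℝ) := by
    exact_mod_cast hn1
  have : (cnt 1 (κ + 1) g S : ℝ) ≤ (N.choose (κ + 1) : ℝ) := by linarith
  exact_mod_cast this

/-- `n > N` and the hypothesis force `51 k ≤ N + 1` -/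
theorem size_of {k n N : ℕ} (hn : N < n) (hkN : k ≤ N)
    (hh : 50 * n.choose k ≤ 51 * N.choose k) : 51 * k ≤ N + 1 := by
  have h1 : (N + 1).choose k ≤ n.choose k := Nat.choose_le_choose _ hn
  have h2 := Nat.choose_mul_succ_eq N k
  have hC : 0 < (N + 1).choose k := Nat.choose_pos (by omega)
  have h3 : (N + 1).choose k * (50 * (N + 1)) ≤ (N + 1).choose k * (51 * (N + 1 - k)) := by
    calc (N + 1).choose k * (50 * (N + 1)) = (50 * (N + 1).choose k) * (N + 1) := by ring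
      _ ≤ (51 * N.choose k) * (N + 1) := Nat.mul_le_mul_right _ (by omega)
      _ = 51 * (N.choose k * (N + 1)) := by ring
      _ = 51 * ((N + 1).choose k * (N + 1 - k)) := by rw [h2]
      _ = _ := by ring
  have h4 := Nat.le_of_mul_le_mul_left h3 hC
  omega

theorem sharp_set {κ N n : ℕ} (hn : N < n) (hN2 : 3 * (κ + 1) ^ 2 ≤ N)
    (hh : 50 * n.choose (κ + 1) ≤ 51 * N.choose (κ + 1))
    (S : Finset ι) (hS : S.card = n) (h : ι → ℝ) (h0 : ∀ i ∈ S, 0 ≤ h i)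
    (hs : ((κ : ℝ) + 1) * ∑ x ∈ S, h x < (N : ℝ) + 1) :
    cnt 1 (κ + 1) h S ≤ N.choose (κ + 1) := by
  have hkk : κ + 1 ≤ (κ + 1) ^ 2 := by nlinarith
  have hkN : κ + 1 ≤ N := by omega
  have hN1 := size_of hn hkN hh
  refine main_of_key hn hkN ?_ S hS h h0 hs
  intro Q g g0 hQ hs'
  have h1 := key_sharp hN1 hN2 Q g g0 hQ hs'
  have h2 : 50 * (n.choose (κ + 1) : ℝ) ≤ 51 * (N.choose (κ + 1) : ℝ) := by exact_mod_cast hh
  have ha0 : 0 ≤ (cnt 1 κ g Q : ℝ) / (N.choose κ : ℝ) := by positivity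
  have h3 : (cnt 1 κ g Q : ℝ) / (N.choose κ : ℝ)
      * ((n.choose (κ + 1) : ℝ) - (N.choose (κ + 1) : ℝ))
      ≤ (cnt 1 κ g Q : ℝ) / (N.choose κ : ℝ) * ((N.choose (κ + 1) : ℝ) / 50) :=
    mul_le_mul_of_nonneg_left (by linarith) ha0
  have h4 : (cnt 1 κ g Q : ℝ) / (N.choose κ : ℝ) * ((N.choose (κ + 1) : ℝ) / 50)
      = ((cnt 1 κ g Q : ℝ) / (N.choose κ : ℝ) * (N.choose (κ + 1) : ℝ)) / 50 := by ring
  rw [h4] at h3
  linarith

end

/-- Theorem R2 -/
theorem optimal_sharp (k n : ℕ) (hk : 1 ≤ k) (h : ℝ) (hN : 3 * k ^ 2 ≤ ⌊h * (k : ℝ)⌋₊)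
    (hn : 50 * n.choose k ≤ 51 * (⌊h * (k : ℝ)⌋₊).choose k)
    (x : Fin n → ℝ) (hx : ∀ i, 0 ≤ x i) (hsum : ∑ i, x i = h) :
    Set.ncard {V : Finset (Fin n) | V.card = k ∧ (1 : ℝ) ≤ ∑ i ∈ V, x i} ≤
      Set.ncard {V : Finset (Fin n) | V.card = k ∧ (1 : ℝ) ≤ ∑ i ∈ V,
        (if i.val < min n ⌊h * (k : ℝ)⌋₊ then (1 : ℝ) / (k : ℝ) else 0)} := by
  rw [ncard_eq_cnt', ncard_eq_cnt']
  refine le_trans ?_ (dist_k hk (min_le_left _ _))
  rcases Nat.lt_or_ge ⌊h * (k : ℝ)⌋₊ n with hlt | hge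
  · rw [min_eq_right hlt.le]
    obtain ⟨κ, rfl⟩ : ∃ κ, k = κ + 1 := ⟨k - 1, by omega⟩
    apply sharp_set hlt hN hn univ (by rw [card_univ, Fintype.card_fin]) x (fun i _ => hx i)
    rw [hsum]
    have h1 := Nat.lt_floor_add_one (h * ((κ + 1 : ℕ) : ℝ))
    push_cast at h1 ⊢
    linarith
  · rw [min_eq_left hge]
    have := cnt_le_choose 1 k x univ
    rwa [card_univ, Fintype.card_fin] at this

/-- the explicit range -/
theorem choose_of_range' {k n N : ℕ} (hk : 1 ≤ k) (h : 51 * k * n ≤ (51 * k + 1) * N) :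
    50 * n.choose k ≤ 51 * N.choose k := by
  rcases Nat.lt_or_ge N n with hlt | hge
  · obtain ⟨j, rfl⟩ : ∃ j, n = N + j := ⟨n - N, by omega⟩
    have h1 : 51 * k * j ≤ N := by nlinarith
    have hj : 1 ≤ j := by omega
    have hkN : 51 * k ≤ N := by nlinarith
    have hN0 : 0 < N := by omega
    have hkN' : k ≤ N := by omega
    have hN0r : (0 : ℝ) < N := by exact_mod_cast hN0
    have h2 : 51 * (k : ℝ) * j ≤ N := by exact_mod_cast h1
    have hj0 : (0 : ℝ) ≤ j := Nat.cast_nonneg j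
    have hk0 : (0 : ℝ) ≤ k := Nat.cast_nonneg k
    have hjk0 : 0 ≤ (j : ℝ) * k := by positivity
    have h3 : (j : ℝ) * k ≤ N := by nlinarith
    have h4 := choose_lower N k hN0 hkN' j h3
    have h5 : 50 / 51 ≤ 1 - (j : ℝ) * k / N := by
      have : (j : ℝ) * k / N ≤ 1 / 51 := by
        rw [div_le_div_iff₀ hN0r (by norm_num)]
        nlinarith
      linarith
    have h6 : (0 : ℝ) ≤ ((N + j).choose k : ℝ) := Nat.cast_nonneg _
    have h7 : ((N + j).choose k : ℝ) * (50 / 51) ≤ (N.choose k : ℝ) :=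
      (mul_le_mul_of_nonneg_left h5 h6).trans h4
    have h8 : 50 * ((N + j).choose k : ℝ) ≤ 51 * (N.choose k : ℝ) := by linarith
    exact_mod_cast h8
  · have h1 : n.choose k ≤ N.choose k := Nat.choose_le_choose _ hge
    omega

end AK
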